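import Pool.Agent.MP_1037db_co.PerDefs
import Pool.Agent.MP_1037db_co.Geo
import Pool.Agent.MP_1037db_co.Defs

-- part MP_1037db_co.Golab
section

/-! Variation of linear forms along a half circle; the half perimeter is at most `4`. -/

namespace Pool.Agent.MP_1037db_co

open Real

variable {η : Seminorm ℝ (ℝ × ℝ)}

theorem eta_pos (hη : ∀ x, η x = 0 → x = 0) (t : ℝ) : 0 < η (cos t, sin t) := by
  refine lt_of_le_of_ne (apply_nonneg η _) fun h => ?_
  have h1 := hη _ h.symm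
  have h2 := cos_sq_add_sin_sq t
  rw [Prod.ext_iff] at h1
  simp only [Prod.fst_zero, Prod.snd_zero] at h1
  rw [h1.1, h1.2] at h2
  norm_num at h2

theorem eta_dir (hη : ∀ x, η x = 0 → x = 0) (t : ℝ) : η (dir η t) = 1 := by
  rw [dir, smul_nn η (inv_nonneg.2 (eta_pos hη t).le), inv_mul_cancel₀ (eta_pos hη t).ne']

theorem dir_add_pi (t : ℝ) : dir η (t + π) = -dir η t := by
  have h : ((-cos t, -sin t) : ℝ × ℝ) = -(cos t, sin t) := rfl
  rw [dir, dir, cos_add_pi, sin_add_pi, h, map_neg_eq_map, smul_neg]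

theorem dir_comb (hη : ∀ x, η x = 0 → x = 0) {a b c : ℝ} (h1 : a ≤ b) (h2 : b ≤ c)
    (h3 : c < a + π) : ∃ l m : ℝ, 0 ≤ l ∧ 0 ≤ m ∧ dir η b = l • dir η a + m • dir η c := by
  rcases (h1.trans h2).eq_or_lt with h | h
  · obtain rfl : a = b := le_antisymm h1 (h ▸ h2)
    exact ⟨1, 0, zero_le_one, le_rfl, by simp⟩
  have s1 : 0 < sin (c - a) := sin_pos_of_pos_of_lt_pi (by linarith) (by linarith)
  have s2 : 0 ≤ sin (c - b) := sin_nonneg_of_nonneg_of_le_pi (by linarith) (by linarith)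
  have s3 : 0 ≤ sin (b - a) := sin_nonneg_of_nonneg_of_le_pi (by linarith) (by linarith)
  have pa := eta_pos hη a
  have pb := eta_pos hη b
  have pc := eta_pos hη c
  refine ⟨sin (c - b) * η (cos a, sin a) / (sin (c - a) * η (cos b, sin b)),
    sin (b - a) * η (cos c, sin c) / (sin (c - a) * η (cos b, sin b)), by positivity, by positivity,
    ?_⟩
  simp only [dir, Prod.smul_mk, smul_eq_mul, Prod.mk_add_mk, Prod.mk.injEq]
  constructor
  · field_simp
    simp only [sin_sub]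
    ring
  · field_simp
    simp only [sin_sub]
    ring

theorem form_mono (f : ℝ × ℝ →ₗ[ℝ] ℝ) {x y z : ℝ × ℝ} {l m M : ℝ} (hx : η x = 1) (hy : η y = 1)
    (hz : η z = 1) (hl : 0 ≤ l) (hm : 0 ≤ m) (e : z = l • x + m • y) (h1 : |f x| ≤ M)
    (h2 : f y = M) : f x ≤ f z := by
  have a1 : 1 ≤ l + m := by
    have := comb_le η hl hm x y
    rw [← e, hx, hy, hz] at this
    linarith
  have a2 : l ≤ 1 + m := by
    have h3 : l • x = (1 : ℝ) • z + m • (-y) := by rw [e]; simp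
    have := comb_le η zero_le_one hm z (-y)
    rw [← h3, smul_nn η hl, map_neg_eq_map, hx, hy, hz] at this
    linarith
  have a3 : f z = l * f x + m * M := by rw [e]; simp [h2]
  obtain ⟨a4, a5⟩ := abs_le.1 h1
  rcases le_total 0 (f x) with h | h
  · nlinarith [mul_nonneg hm (sub_nonneg.2 a5), mul_nonneg h (sub_nonneg.2 a1)]
  · nlinarith [mul_nonneg hm (show 0 ≤ f x + M by linarith),
      mul_nonneg (neg_nonneg.2 h) (sub_nonneg.2 a2)]

theorem var_le_aux (hη : ∀ x, η x = 0 → x = 0) (f : ℝ × ℝ →ₗ[ℝ] ℝ) {k : ℕ} {τ : ℕ → ℝ}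
    (hτ : Monotone τ) (hk : τ k ≤ τ 0 + π) {m : ℕ} (hm : m ≤ k)
    (hf : ∀ i ≤ k, |f (dir η (τ i))| ≤ f (dir η (τ m))) :
    ∑ i ∈ Finset.range k, |f (dir η (τ (i + 1))) - f (dir η (τ i))| ≤ 2 * f (dir η (τ m)) := by
  set M := f (dir η (τ m)) with hM
  have up : ∀ a b, a ≤ b → b ≤ τ m → τ m ≤ a + π → |f (dir η a)| ≤ M → |f (dir η b)| ≤ M →
      f (dir η a) ≤ f (dir η b) := by
    intro a b h1 h2 h3 h4 h5
    rcases h3.eq_or_lt with h | h
    · have : M = -f (dir η a) := by rw [hM, h, dir_add_pi, map_neg]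
      linarith [(abs_le.1 h5).1]
    · obtain ⟨l, n, hl, hn, e⟩ := dir_comb hη h1 h2 h
      exact form_mono f (eta_dir hη _) (eta_dir hη _) (eta_dir hη _) hl hn e h4 rfl
  have down : ∀ a b, τ m ≤ b → b ≤ a → a ≤ τ m + π → |f (dir η a)| ≤ M → |f (dir η b)| ≤ M →
      f (dir η a) ≤ f (dir η b) := by
    intro a b h1 h2 h3 h4 h5
    rcases h3.eq_or_lt with h | h
    · have : f (dir η a) = -M := by rw [hM, h, dir_add_pi, map_neg]
      linarith [(abs_le.1 h5).1]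
    · obtain ⟨l, n, hl, hn, e⟩ := dir_comb hη h1 h2 h
      exact form_mono f (eta_dir hη _) (eta_dir hη _) (eta_dir hη _) hn hl
        (e.trans (add_comm _ _)) h4 rfl
  have t0 : ∀ i, τ 0 ≤ τ i := fun i => hτ (Nat.zero_le i)
  have tk : ∀ i ≤ k, τ i ≤ τ 0 + π := fun i hi => (hτ hi).trans hk
  set V : ℕ → ℝ := fun i => if i ≤ m then f (dir η (τ i)) else 2 * M - f (dir η (τ i)) with hV
  have h1 : ∑ i ∈ Finset.range k, |f (dir η (τ (i + 1))) - f (dir η (τ i))| ≤ V k - V 0 := by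
    rw [← Finset.sum_range_sub]
    refine Finset.sum_le_sum fun i hi => ?_
    have hi' : i + 1 ≤ k := Finset.mem_range.1 hi
    have a1 := hf _ hi'
    have a2 := hf i (by omega)
    by_cases c1 : i + 1 ≤ m
    · have := up _ _ (hτ (Nat.le_succ i)) (hτ c1) (by linarith [tk m hm, t0 i]) a2 a1
      simp only [hV, if_pos c1, if_pos (show i ≤ m by omega)]
      exact (abs_of_nonneg (sub_nonneg.2 this)).le
    · have := down _ _ (hτ (show m ≤ i by omega)) (hτ (Nat.le_succ i))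
        (by linarith [tk _ hi', t0 m]) a1 a2
      rw [abs_of_nonpos (sub_nonpos.2 this)]
      by_cases c2 : i ≤ m
      · obtain rfl : i = m := by omega
        simp only [hV, if_neg c1, if_pos c2]
        linarith
      · simp only [hV, if_neg c1, if_neg c2]
        linarith
  have h2 : f (dir η (τ 0 + π)) ≤ f (dir η (τ k)) :=
    down _ _ (hτ hm) hk (by linarith [t0 m])
      (by rw [dir_add_pi, map_neg, abs_neg]; exact hf 0 (Nat.zero_le _)) (hf k le_rfl)
  rw [dir_add_pi, map_neg] at h2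
  have h3 : V k = 2 * M - f (dir η (τ k)) := by
    by_cases c : k ≤ m
    · obtain rfl : k = m := by omega
      simp only [hV, if_pos c]
      linarith
    · simp only [hV, if_neg c]
  have h4 : V 0 = f (dir η (τ 0)) := by simp [hV]
  linarith

/-- the variation of a linear form along a half circle -/
theorem var_le (hη : ∀ x, η x = 0 → x = 0) (f : ℝ × ℝ →ₗ[ℝ] ℝ) {k : ℕ} {τ : ℕ → ℝ}
    (hτ : Monotone τ) (hk : τ k ≤ τ 0 + π) {M : ℝ} (hf : ∀ i ≤ k, |f (dir η (τ i))| ≤ M) :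
    ∑ i ∈ Finset.range k, |f (dir η (τ (i + 1)) - dir η (τ i))| ≤ 2 * M := by
  obtain ⟨m, hm, hmax⟩ := (Finset.range (k + 1)).exists_max_image
    (fun i => |f (dir η (τ i))|) ⟨0, by simp⟩
  have hm' : m ≤ k := Nat.lt_succ_iff.1 (Finset.mem_range.1 hm)
  have hx : ∀ i ≤ k, |f (dir η (τ i))| ≤ |f (dir η (τ m))| := fun i hi =>
    hmax i (Finset.mem_range.2 (Nat.lt_succ_iff.2 hi))
  have h1 := hf m hm'
  rcases abs_cases (f (dir η (τ m))) with ⟨h, -⟩ | ⟨h, -⟩
  · have := var_le_aux hη f hτ hk hm' fun i hi => h ▸ hx i hi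
    simp only [map_sub]
    linarith
  · have := var_le_aux hη (-f) hτ hk hm' fun i hi => by
      simpa only [LinearMap.neg_apply, abs_neg, ← h] using hx i hi
    have e : ∀ i, |f (dir η (τ (i + 1)) - dir η (τ i))| =
        |(-f) (dir η (τ (i + 1))) - (-f) (dir η (τ i))| := fun i => by
      rw [← map_sub (-f), LinearMap.neg_apply, abs_neg]
    simp only [e]
    rw [LinearMap.neg_apply] at this
    linarith

/-- the determinant as a linear form -/
noncomputable def detL (a : ℝ × ℝ) (c : ℝ) : ℝ × ℝ →ₗ[ℝ] ℝ where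
  toFun w := det a w / c
  map_add' x y := by simp only [det, Prod.fst_add, Prod.snd_add]; ring
  map_smul' r x := by
    simp only [det, Prod.smul_fst, Prod.smul_snd, smul_eq_mul, RingHom.id_apply]
    ring

theorem chain_le_four (hη : ∀ x, η x = 0 → x = 0) {k : ℕ} {τ : ℕ → ℝ} (hτ : Monotone τ)
    (hk : τ k ≤ τ 0 + π) :
    ∑ i ∈ Finset.range k, η (dir η (τ (i + 1)) - dir η (τ i)) ≤ 4 := by
  classical
  set E : Finset ℝ := insert (τ 0 + π / 2) ((Finset.range (k + 1)).image τ) with hE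
  have hmem : ∀ i ≤ k, τ i ∈ E := fun i hi => Finset.mem_insert_of_mem
    (Finset.mem_image_of_mem _ (Finset.mem_range.2 (Nat.lt_succ_iff.2 hi)))
  obtain ⟨⟨a, b⟩, hab, hmax⟩ := (E ×ˢ E).exists_max_image
    (fun q => |det (dir η q.1) (dir η q.2)|) ⟨(τ 0, τ 0), by simp [hmem 0 (Nat.zero_le _)]⟩
  obtain ⟨ha, hb⟩ := Finset.mem_product.1 hab
  set δ := det (dir η a) (dir η b) with hδ
  have hpos : 0 < |δ| := by
    refine lt_of_lt_of_le ?_ (hmax (τ 0, τ 0 + π / 2)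
      (Finset.mem_product.2 ⟨hmem 0 (Nat.zero_le _), Finset.mem_insert_self _ _⟩))
    have p1 := eta_pos hη (τ 0)
    have p2 := eta_pos hη (τ 0 + π / 2)
    have : det (dir η (τ 0)) (dir η (τ 0 + π / 2)) =
        (η (cos (τ 0), sin (τ 0)))⁻¹ * (η (cos (τ 0 + π / 2), sin (τ 0 + π / 2)))⁻¹ := by
      simp only [dir, det, Prod.smul_mk, smul_eq_mul]
      generalize (η (cos (τ 0 + π / 2), sin (τ 0 + π / 2)))⁻¹ = y
      rw [cos_add_pi_div_two, sin_add_pi_div_two]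
      linear_combination (η (cos (τ 0), sin (τ 0)))⁻¹ * y * cos_sq_add_sin_sq (τ 0)
    simp only [this]
    positivity
  have hδ0 : δ ≠ 0 := abs_pos.1 hpos
  have v1 := var_le hη (detL (dir η a) δ) hτ hk (M := 1) fun i hi => by
    change |det _ _ / δ| ≤ 1
    rw [abs_div, div_le_one hpos]
    exact hmax (a, τ i) (Finset.mem_product.2 ⟨ha, hmem i hi⟩)
  have v2 := var_le hη (detL (dir η b) δ) hτ hk (M := 1) fun i hi => by
    change |det _ _ / δ| ≤ 1
    rw [abs_div, div_le_one hpos]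
    have := hmax (τ i, b) (Finset.mem_product.2 ⟨hmem i hi, hb⟩)
    rwa [show det (dir η b) (dir η (τ i)) = -det (dir η (τ i)) (dir η b) by
      simp only [det]; ring, abs_neg]
  have key : ∀ w, η w ≤ |detL (dir η a) δ w| + |detL (dir η b) δ w| := by
    intro w
    have e : w = detL (dir η a) δ w • dir η b - detL (dir η b) δ w • dir η a := by
      change w = (det _ _ / δ) • dir η b - (det _ _ / δ) • dir η a
      ext
      · simp only [Prod.fst_sub, Prod.smul_fst, smul_eq_mul]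
        field_simp
        simp only [hδ, det]
        ring
      · simp only [Prod.snd_sub, Prod.smul_snd, smul_eq_mul]
        field_simp
        simp only [hδ, det]
        ring
    have := map_sub_le_add η (detL (dir η a) δ w • dir η b) (detL (dir η b) δ w • dir η a)
    rwa [← e, map_smul_eq_mul, map_smul_eq_mul, eta_dir hη, eta_dir hη, mul_one, mul_one] at this
  calc _ ≤ ∑ i ∈ Finset.range k, (|detL (dir η a) δ (dir η (τ (i + 1)) - dir η (τ i))| +
        |detL (dir η b) δ (dir η (τ (i + 1)) - dir η (τ i))|) := Finset.sum_le_sum fun i _ => key _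
    _ ≤ 4 := by rw [Finset.sum_add_distrib]; linarith

theorem per_le {B : ℝ} (h : ∀ (k : ℕ) (τ : ℕ → ℝ), Monotone τ → τ k ≤ τ 0 + π →
    ∑ i ∈ Finset.range k, η (dir η (τ (i + 1)) - dir η (τ i)) ≤ B) : Per η ≤ B := by
  refine csSup_le ⟨0, 0, fun _ => 0, monotone_const, by linarith [pi_pos], by simp⟩ ?_
  rintro _ ⟨k, τ, h1, h2, rfl⟩
  exact h k τ h1 h2

theorem per_le_four (hη : ∀ x, η x = 0 → x = 0) : Per η ≤ 4 :=
  per_le fun _ _ h1 h2 => chain_le_four hη h1 h2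

theorem le_per (hη : ∀ x, η x = 0 → x = 0) {k : ℕ} {τ : ℕ → ℝ} (hτ : Monotone τ)
    (hk : τ k ≤ τ 0 + π) : ∑ i ∈ Finset.range k, η (dir η (τ (i + 1)) - dir η (τ i)) ≤ Per η := by
  refine le_csSup ⟨4, ?_⟩ ⟨k, τ, hτ, hk, rfl⟩
  rintro _ ⟨k, τ, h1, h2, rfl⟩
  exact chain_le_four hη h1 h2

end Pool.Agent.MP_1037db_co

end

-- part MP_1037db_co.Sweep
section

/-! Abstract wake-up schedules and the sweep lemma. -/

namespace Pool.Agent.MP_1037db_co

variable {α : Type}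

/-- span below a node for an abstract distance -/
noncomputable def sp (D : α → α → ℝ) : α → BinaryTree α → ℝ
  | _, .nil => 0
  | k, .node i l r => D k i + max (sp D i l) (sp D i r)

/-- a robot that can reach `i` at time `f i` can have all of `S` awake at time `T` -/
def W (D : α → α → ℝ) (f : α → ℝ) (S : Finset α) (T : ℝ) : Prop :=
  S = ∅ ∨ ∃ i l r, labels (.node i l r) = S.val ∧ f i + max (sp D i l) (sp D i r) ≤ T

variable {D : α → α → ℝ} {f g : α → ℝ} {S : Finset α} {T : ℝ}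

theorem W.tree {k : α} {a : ℝ} (h : W D (fun j => a + D k j) S T) (ha : a ≤ T) :
    ∃ t, labels t = S.val ∧ a + sp D k t ≤ T := by
  rcases h with rfl | ⟨i, l, r, h1, h2⟩
  · exact ⟨.nil, rfl, by simpa [sp] using ha⟩
  · exact ⟨.node i l r, h1, by simp only [sp]; linarith⟩

theorem W.step [DecidableEq α] {k : α} (hk : k ∈ S) (P : α → Prop) [DecidablePred P]
    (hT : f k ≤ T) (h1 : W D (fun j => f k + D k j) ((S.erase k).filter P) T)
    (h2 : W D (fun j => f k + D k j) ((S.erase k).filter fun j => ¬ P j) T) : W D f S T := by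
  obtain ⟨l, hl, hl'⟩ := h1.tree hT
  obtain ⟨r, hr, hr'⟩ := h2.tree hT
  refine Or.inr ⟨k, l, r, ?_, ?_⟩
  · rw [labels, hl, hr, Finset.filter_val, Finset.filter_val, Multiset.filter_add_not,
      Finset.erase_val, Multiset.cons_erase hk]
  · rcases le_total (sp D k l) (sp D k r) with h | h
    · rw [max_eq_right h]; exact hr'
    · rw [max_eq_left h]; exact hl'

theorem mem_of_left [DecidableEq α] {k j : α} {P : α → Prop} [DecidablePred P]
    (h : j ∈ (S.erase k).filter P) : j ∈ S ∧ P j :=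
  ⟨Finset.mem_of_mem_erase (Finset.mem_filter.1 h).1, (Finset.mem_filter.1 h).2⟩

/-- Sweep in the direction of `x`, splitting the lane in the golden ratio. -/
theorem sweep [DecidableEq α] (x y : α → ℝ) (X : ℝ) (n : ℕ) : ∀ (S : Finset α) (f : α → ℝ)
    (y0 y1 T : ℝ), S.card = n → (∀ i ∈ S, ∀ j ∈ S, D i j ≤ |x i - x j| + |y i - y j|) →
    (∀ i ∈ S, x i ≤ X ∧ y0 ≤ y i ∧ y i ≤ y1 ∧ f i + (X - x i) + 13 / 8 * (y1 - y0) ≤ T) →
    W D f S T := by
  induction n using Nat.strong_induction_on with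
  | _ n ih =>
  intro S f y0 y1 T hn hD h
  rcases S.eq_empty_or_nonempty with rfl | hne
  · exact Or.inl rfl
  obtain ⟨k, hk, hmin⟩ := S.exists_min_image x hne
  obtain ⟨a1, a2, a3, a4⟩ := h k hk
  have hc : ∀ (P : α → Prop) [DecidablePred P], ((S.erase k).filter P).card < n := fun P _ =>
    hn ▸ (Finset.card_filter_le _ _).trans_lt (Finset.card_erase_lt_of_mem hk)
  obtain ⟨m, hm1, hm2⟩ : ∃ m, (∀ z, y0 ≤ z → z ≤ m →
      |y k - z| + 13 / 8 * (m - y0) ≤ 13 / 8 * (y1 - y0)) ∧ ∀ z, m ≤ z → z ≤ y1 →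
      |y k - z| + 13 / 8 * (y1 - m) ≤ 13 / 8 * (y1 - y0) := by
    rcases le_total (y k) ((y0 + y1) / 2) with h2 | h2
    · refine ⟨y0 + 8 / 13 * (y1 - y0), fun z h3 h4 => ?_, fun z h3 h4 => ?_⟩ <;>
        rcases abs_cases (y k - z) with ⟨h5, -⟩ | ⟨h5, -⟩ <;> linarith
    · refine ⟨y0 + 5 / 13 * (y1 - y0), fun z h3 h4 => ?_, fun z h3 h4 => ?_⟩ <;>
        rcases abs_cases (y k - z) with ⟨h5, -⟩ | ⟨h5, -⟩ <;> linarith
  have hd : ∀ j ∈ S, D k j ≤ x j - x k + |y k - y j| := fun j hj => by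
    have := hD k hk j hj
    rwa [abs_of_nonpos (sub_nonpos.2 (hmin j hj)), neg_sub] at this
  refine W.step hk (fun j => y j ≤ m) (by linarith) ?_ ?_
  · refine ih _ (hc _) _ _ y0 m T rfl
      (fun i hi j hj => hD i (mem_of_left hi).1 j (mem_of_left hj).1) fun j hj => ?_
    obtain ⟨b1, b2⟩ := mem_of_left hj
    obtain ⟨c1, c2, -, -⟩ := h j b1
    have := hm1 _ c2 b2
    have := hd j b1
    exact ⟨c1, c2, b2, by linarith⟩
  · refine ih _ (hc _) _ _ m y1 T rfl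
      (fun i hi j hj => hD i (mem_of_left hi).1 j (mem_of_left hj).1) fun j hj => ?_
    obtain ⟨b1, b2⟩ := mem_of_left hj
    obtain ⟨c1, -, c3, -⟩ := h j b1
    have := hm2 _ (not_le.1 b2).le c3
    have := hd j b1
    exact ⟨c1, (not_le.1 b2).le, c3, by linarith⟩

/-- polar coordinates dominating the distance -/
structure Cone (D : α → α → ℝ) (ρ θ : α → ℝ) : Prop where
  nn : ∀ i, 0 ≤ ρ i
  le : ∀ i, ρ i ≤ 1
  ang : ∀ i j, D i j ≤ |ρ i - ρ j| + min (ρ i) (ρ j) * |θ i - θ j|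
  org : ∀ i j, D i j ≤ ρ i + ρ j

variable {ρ θ : α → ℝ}

theorem Cone.flip (h : Cone D ρ θ) (c : ℝ) : Cone D ρ fun i => c - θ i :=
  ⟨h.nn, h.le, fun i j => by
    rw [sub_sub_sub_cancel_left, abs_sub_comm (θ j)]; exact h.ang i j, h.org⟩

theorem Cone.ang' (h : Cone D ρ θ) (i j : α) {b : ℝ} (hb : min (ρ i) (ρ j) ≤ b) :
    D i j ≤ |ρ i - ρ j| + b * |θ i - θ j| :=
  (h.ang i j).trans (add_le_add_right (mul_le_mul_of_nonneg_right hb (abs_nonneg _)) _)

/-- moving outwards and forwards -/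
theorem Cone.fwd (h : Cone D ρ θ) {i j : α} (h1 : ρ i ≤ ρ j) (h2 : θ i ≤ θ j) :
    D i j ≤ ρ j - ρ i + ρ i * (θ j - θ i) := by
  have := h.ang' i j (min_le_left _ _)
  rwa [abs_of_nonpos (sub_nonpos.2 h1), abs_of_nonpos (sub_nonpos.2 h2), neg_sub, neg_sub] at this

/-- moving outwards and backwards -/
theorem Cone.bwd (h : Cone D ρ θ) {i j : α} (h1 : ρ i ≤ ρ j) (h2 : θ j ≤ θ i) :
    D i j ≤ ρ j - ρ i + ρ i * (θ i - θ j) := by
  have := h.ang' i j (min_le_left _ _)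
  rwa [abs_of_nonpos (sub_nonpos.2 h1), abs_of_nonneg (sub_nonneg.2 h2), neg_sub] at this

/-- moving inwards and forwards -/
theorem Cone.inw (h : Cone D ρ θ) {i j : α} (h1 : ρ j ≤ ρ i) (h2 : θ i ≤ θ j) :
    D i j ≤ ρ i - ρ j + ρ j * (θ j - θ i) := by
  have := h.ang' i j (min_le_right _ _)
  rwa [abs_of_nonneg (sub_nonneg.2 h1), abs_of_nonpos (sub_nonpos.2 h2), neg_sub] at this

variable [DecidableEq α]

/-- angular sweep of the lane `[a, b]` up to the angle `X` -/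
theorem Cone.hs (h : Cone D ρ θ) (a b X : ℝ)
    (H : ∀ i ∈ S, θ i ≤ X ∧ a ≤ ρ i ∧ ρ i ≤ b ∧ f i + b * (X - θ i) + 13 / 8 * (b - a) ≤ T) :
    W D f S T := by
  refine sweep (fun i => b * θ i) ρ (b * X) _ S f a b T rfl (fun i hi j _ => ?_) fun i hi => ?_
  · have h1 := (H i hi).2.2.1
    have := h.ang' i j ((min_le_left _ _).trans h1)
    rw [← mul_sub, abs_mul, abs_of_nonneg ((h.nn i).trans h1)]
    linarith
  · obtain ⟨h1, h2, h3, h4⟩ := H i hi
    exact ⟨mul_le_mul_of_nonneg_left h1 ((h.nn i).trans h3), h2, h3, by linarith⟩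

/-- angular sweep of the lane `[a, 1]` up to the angle `X` -/
theorem Cone.hr (h : Cone D ρ θ) (a X : ℝ)
    (H : ∀ i ∈ S, θ i ≤ X ∧ a ≤ ρ i ∧ f i + (X - θ i) + 13 / 8 * (1 - a) ≤ T) : W D f S T :=
  h.hs a 1 X fun i hi => ⟨(H i hi).1, (H i hi).2.1, h.le i, by linarith [(H i hi).2.2]⟩

/-- angular sweep of the lane `[a, 1]` down to the angle `X` -/
theorem Cone.hl (h : Cone D ρ θ) (a X : ℝ)
    (H : ∀ i ∈ S, X ≤ θ i ∧ a ≤ ρ i ∧ f i + (θ i - X) + 13 / 8 * (1 - a) ≤ T) : W D f S T :=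
  (h.flip 0).hr a (-X) fun i hi =>
    ⟨by linarith [(H i hi).1], (H i hi).2.1, by linarith [(H i hi).2.2]⟩

/-- outward sweep of the sector `[c, e]` -/
theorem Cone.vs (h : Cone D ρ θ) (c e : ℝ)
    (H : ∀ i ∈ S, c ≤ θ i ∧ θ i ≤ e ∧ f i + (1 - ρ i) + 13 / 8 * (e - c) ≤ T) : W D f S T :=
  sweep ρ θ 1 _ S f c e T rfl (fun i _ j _ => by
    simpa using h.ang' i j ((min_le_left _ _).trans (h.le i)))
    fun i hi => ⟨h.le i, (H i hi).1, (H i hi).2.1, (H i hi).2.2⟩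

end Pool.Agent.MP_1037db_co

end

-- part MP_1037db_co.Half
section

/-! One robot wakes a half annulus. -/

namespace Pool.Agent.MP_1037db_co

variable {α : Type} [DecidableEq α] {D : α → α → ℝ} {f : α → ℝ} {S : Finset α} {T : ℝ}
  {ρ θ : α → ℝ}

theorem ineq_vv1 {s β : ℝ} (h0 : 0 ≤ s) (h : β ≤ 13 / 8 * (1 - s) - 3 / 10) : s * β ≤ 3 / 10 := by
  nlinarith [mul_le_mul_of_nonneg_left h h0, sq_nonneg (s - 2 / 5)]

theorem ineq_vv2 {s β l z : ℝ} (hβ : 0 ≤ β) (hl : l ≤ 2) (hz : 0 ≤ z) (hz' : z ≤ 4 / 7 * l - β)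
    (h0 : 0 ≤ s) (h : s ≤ 4 / 5 - l / 4 + β / 4) : s * z ≤ 3 / 10 + l / 14 := by
  have h1 : s * z ≤ (4 / 5 - l / 4 + β / 4) * (4 / 7 * l - β) :=
    mul_le_mul h hz' hz (h0.trans h)
  nlinarith [mul_nonneg hβ (sub_nonneg.2 hl), sq_nonneg (l - 4 / 3), sq_nonneg β]

theorem ineq_vv3 {s β l z : ℝ} (hβ : 0 ≤ β) (hz : 0 ≤ z) (hz' : z ≤ l - β)
    (h0 : 0 ≤ s) (h : s ≤ 4 / 5 - l / 4 + β / 4) : s * z ≤ 3 / 10 + 17 / 56 * l := by
  have h1 : s * z ≤ (4 / 5 - l / 4 + β / 4) * (l - β) := mul_le_mul h hz' hz (h0.trans h)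
  nlinarith [sq_nonneg (l - β - 1)]

theorem ineq_hv {s β l : ℝ} (hβ : 0 ≤ β) (h1 : s ≤ 1) (hb : β ≤ 13 / 8 * (1 - s) - 3 / 10)
    (h : 4 / 5 - l / 4 + β / 4 ≤ s) :
    s * (l - β) + 13 / 8 * (13 / 8 * (1 - s) + s * β - 3 / 10) ≤ 3 / 10 + l := by
  have h2 := mul_le_mul_of_nonneg_left h (sub_nonneg.2 h1)
  rcases le_total s (8 / 13) with h3 | h3
  · nlinarith [mul_nonneg hβ (sub_nonneg.2 h3), sq_nonneg (s - 4 / 7)]
  · nlinarith [mul_le_mul_of_nonneg_left hb (sub_nonneg.2 h3), sq_nonneg (s - 3 / 5)]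

theorem Cone.orig' (h : Cone D ρ θ) (c e t : ℝ) {k : α} (hk : k ∈ S) (hm : ∀ i ∈ S, ρ k ≤ ρ i)
    (hβ : θ k - c ≤ e - θ k) (hl : e - c ≤ 2) (H : ∀ i ∈ S, c ≤ θ i ∧ θ i ≤ e ∧ f i ≤ t + ρ i)
    (hT : t + 13 / 10 + (e - c) ≤ T) : W D f S T := by
  obtain ⟨k1, k2, k3⟩ := H k hk
  have s0 := h.nn k
  have s1 := h.le k
  have hkT : f k ≤ T := by linarith
  have sh : ∀ z, 0 ≤ z → ρ k * z ≤ z := fun z hz => mul_le_of_le_one_left hz s1
  rcases le_total (13 / 8 * (1 - ρ k) - 3 / 10) (θ k - c) with h1 | h1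
  · refine W.step hk (fun j => θ j ≤ θ k) hkT (h.hl (ρ k) c fun j hj => ?_)
      (h.hr (ρ k) e fun j hj => ?_)
    · obtain ⟨b1, b2⟩ := mem_of_left hj
      have := h.bwd (hm j b1) b2
      have := sh _ (sub_nonneg.2 b2)
      exact ⟨(H j b1).1, hm j b1, by linarith [h.le j]⟩
    · obtain ⟨b1, b2⟩ := mem_of_left hj
      have := h.fwd (hm j b1) (not_le.1 b2).le
      have := sh _ (sub_nonneg.2 (not_le.1 b2).le)
      exact ⟨(H j b1).2.1, hm j b1, by linarith [h.le j]⟩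
  rcases le_total (ρ k) (4 / 5 - (e - c) / 4 + (θ k - c) / 4) with h2 | h2
  · refine W.step hk (fun j => θ j ≤ c + 4 / 7 * (e - c)) hkT
      (h.vs c (c + 4 / 7 * (e - c)) fun j hj => ?_) (h.vs (c + 4 / 7 * (e - c)) e fun j hj => ?_)
    · obtain ⟨b1, b2⟩ := mem_of_left hj
      obtain ⟨c1, -, -⟩ := H j b1
      refine ⟨c1, b2, ?_⟩
      rcases le_total (θ j) (θ k) with h3 | h3
      · have := h.bwd (hm j b1) h3
        have := ineq_vv1 s0 h1
        have := mul_le_mul_of_nonneg_left (show θ k - θ j ≤ θ k - c by linarith) s0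
        linarith
      · have := h.fwd (hm j b1) h3
        have := ineq_vv2 (sub_nonneg.2 k1) hl (sub_nonneg.2 h3) (by linarith) s0 h2
        linarith
    · obtain ⟨b1, b2⟩ := mem_of_left hj
      obtain ⟨-, c2, -⟩ := H j b1
      have b3 := (not_le.1 b2).le
      have h3 : θ k ≤ θ j := by linarith
      have := h.fwd (hm j b1) h3
      have := ineq_vv3 (sub_nonneg.2 k1) (sub_nonneg.2 h3) (by linarith) s0 h2
      exact ⟨b3, c2, by linarith⟩
  · refine W.step hk (fun j => θ j ≤ e + 3 / 10 - 13 / 8 * (1 - ρ k) - ρ k * (θ k - c)) hkT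
      (h.hr (ρ k) (e + 3 / 10 - 13 / 8 * (1 - ρ k) - ρ k * (θ k - c)) fun j hj => ?_)
      (h.vs (e + 3 / 10 - 13 / 8 * (1 - ρ k) - ρ k * (θ k - c)) e fun j hj => ?_)
    · obtain ⟨b1, b2⟩ := mem_of_left hj
      obtain ⟨c1, -, -⟩ := H j b1
      refine ⟨b2, hm j b1, ?_⟩
      rcases le_total (θ j) (θ k) with h3 | h3
      · have := h.bwd (hm j b1) h3
        have := mul_le_mul_of_nonneg_left (show θ k - θ j ≤ θ k - c by linarith) s0
        linarith [h.le j]
      · have := h.fwd (hm j b1) h3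
        have := sh _ (sub_nonneg.2 h3)
        have := mul_nonneg s0 (sub_nonneg.2 k1)
        linarith [h.le j]
    · obtain ⟨b1, b2⟩ := mem_of_left hj
      obtain ⟨c1, c2, -⟩ := H j b1
      refine ⟨(not_le.1 b2).le, c2, ?_⟩
      have h4 := ineq_hv (sub_nonneg.2 k1) s1 h1 h2
      rcases le_total (θ j) (θ k) with h3 | h3
      · have := h.bwd (hm j b1) h3
        have := mul_le_mul_of_nonneg_left (show θ k - θ j ≤ e - c - (θ k - c) by linarith) s0
        linarith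
      · have := h.fwd (hm j b1) h3
        have := mul_le_mul_of_nonneg_left (show θ j - θ k ≤ e - c - (θ k - c) by linarith) s0
        linarith

/-- a robot at the origin wakes a sector of width at most `2` -/
theorem Cone.orig (h : Cone D ρ θ) (c e t : ℝ) (hl : e - c ≤ 2)
    (H : ∀ i ∈ S, c ≤ θ i ∧ θ i ≤ e ∧ f i ≤ t + ρ i) (hT : t + 13 / 10 + (e - c) ≤ T) :
    W D f S T := by
  rcases S.eq_empty_or_nonempty with rfl | hne
  · exact Or.inl rfl
  obtain ⟨k, hk, hm⟩ := S.exists_min_image ρ hne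
  rcases le_total (θ k - c) (e - θ k) with h1 | h1
  · exact h.orig' c e t hk hm h1 hl H hT
  · exact (h.flip 0).orig' (-e) (-c) t hk hm (by linarith) (by linarith)
      (fun i hi => ⟨by linarith [(H i hi).2.1], by linarith [(H i hi).1], (H i hi).2.2⟩)
      (by linarith)

theorem Cone.thick (h : Cone D ρ θ) {L : ℝ} (hL : 18 / 5 ≤ L) (hL4 : L ≤ 4) {k : α} (hk : k ∈ S)
    (hs : ρ k ≤ 3 / 8) (hf : f k ≤ 3 * ρ k) (H : ∀ i ∈ S, 0 ≤ θ i ∧ θ i ≤ L) :
    W D f S (1 + L) := by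
  refine W.step hk (fun j => θ j ≤ L / 2) (by linarith)
    (h.orig 0 (L / 2) (4 * ρ k) (by linarith) (fun j hj => ?_) (by linarith))
    (h.orig (L / 2) L (4 * ρ k) (by linarith) (fun j hj => ?_) (by linarith))
  · obtain ⟨b1, b2⟩ := mem_of_left hj
    exact ⟨(H j b1).1, b2, by linarith [h.org k j]⟩
  · obtain ⟨b1, b2⟩ := mem_of_left hj
    exact ⟨(not_le.1 b2).le, (H j b1).2, by linarith [h.org k j]⟩

theorem ineq_quarter {u z σ : ℝ} (h0 : 0 ≤ u) (h1 : u ≤ z) (h2 : σ ≤ 1 - u) :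
    u + σ * z - z ≤ 1 / 4 := by
  have h3 := mul_le_mul_of_nonneg_right h2 (h0.trans h1)
  rcases le_total z 1 with h4 | h4
  · nlinarith [mul_le_mul_of_nonneg_right h1 (sub_nonneg.2 h4), sq_nonneg (z - 1 / 2)]
  · nlinarith [mul_nonneg h0 (sub_nonneg.2 h4)]

theorem ineq_mid {s a L : ℝ} (hL : 18 / 5 ≤ L) (h1 : 3 / 8 ≤ s) (h2 : s ≤ 27 / 50) (h0 : 0 ≤ a)
    (ha : a ≤ L) : 51 / 20 + 2 * (s * a) - a + 13 / 8 * (1 - s) ≤ L := by
  rcases le_total s (1 / 2) with h3 | h3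
  · nlinarith [mul_nonneg h0 (sub_nonneg.2 h3)]
  · nlinarith [mul_nonneg (sub_nonneg.2 ha) (sub_nonneg.2 h3),
      mul_nonneg (sub_nonneg.2 hL) (sub_nonneg.2 h2)]

theorem Cone.mid (h : Cone D ρ θ) {L s : ℝ} (hL : 18 / 5 ≤ L) (h1 : 3 / 8 ≤ s) (h2 : s ≤ 27 / 50)
    (H : ∀ i ∈ S, 0 ≤ θ i ∧ θ i ≤ L ∧ s ≤ ρ i ∧ f i ≤ ρ i + s * θ i) : W D f S (1 + L) := by
  rcases S.eq_empty_or_nonempty with rfl | hne
  · exact Or.inl rfl
  obtain ⟨k, hk, hm⟩ := S.exists_min_image (fun i => ρ i + θ i) hne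
  obtain ⟨k1, k2, k3, k4⟩ := H k hk
  have s0 := h.nn k
  have s1 := h.le k
  have sa : s * θ k ≤ θ k := mul_le_of_le_one_left k1 (by linarith)
  obtain ⟨c, c1, c2, c3, c4⟩ : ∃ c, 2 * ρ k + s * θ k + 3 / 10 ≤ c ∧ L - 2 ≤ c ∧
      1 / 4 + c + s * θ k - θ k + 13 / 8 * (1 - s) ≤ L ∧
      1 - ρ k ^ 2 + c + s * θ k - θ k + 13 / 8 * (1 - s) ≤ L := by
    have h3 := ineq_mid hL h1 h2 k1 k2
    rcases le_total (L - 2) (2 * ρ k + s * θ k + 3 / 10) with h4 | h4
    · exact ⟨_, le_rfl, h4, by linarith, by nlinarith [sq_nonneg (ρ k - 1)]⟩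
    · exact ⟨_, h4, le_rfl, by linarith, by nlinarith⟩
  refine W.step hk (fun j => θ j ≤ c) (by linarith) (h.hr s c fun j hj => ?_)
    (h.orig c L (2 * ρ k + s * θ k) (by linarith) (fun j hj => ?_) (by linarith))
  · obtain ⟨b1, b2⟩ := mem_of_left hj
    obtain ⟨-, -, d3, -⟩ := H j b1
    have d4 : ρ k + θ k ≤ ρ j + θ j := hm j b1
    have d5 := h.le j
    refine ⟨b2, d3, ?_⟩
    rcases le_total (θ j) (θ k) with h3 | h3
    · have := h.bwd (show ρ k ≤ ρ j by linarith) h3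
      have := mul_le_mul_of_nonneg_left (show θ k - θ j ≤ 1 - ρ k by linarith) s0
      nlinarith
    rcases le_total (ρ k) (ρ j) with h4 | h4
    · have := h.fwd h4 h3
      have := mul_le_of_le_one_left (sub_nonneg.2 h3) s1
      linarith
    · have := h.inw h4 h3
      have := ineq_quarter (sub_nonneg.2 h4) (show ρ k - ρ j ≤ θ j - θ k by linarith)
        (show ρ j ≤ 1 - (ρ k - ρ j) by linarith)
      linarith
  · obtain ⟨b1, b2⟩ := mem_of_left hj
    exact ⟨(not_le.1 b2).le, (H j b1).2.1, by linarith [h.org k j]⟩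

theorem Cone.thin (h : Cone D ρ θ) {L s : ℝ} (hL : 18 / 5 ≤ L) (h1 : 27 / 50 ≤ s)
    (H : ∀ i ∈ S, 0 ≤ θ i ∧ θ i ≤ L ∧ s ≤ ρ i ∧ f i ≤ ρ i + s * θ i) : W D f S (1 + L) := by
  rcases S.eq_empty_or_nonempty with rfl | hne
  · exact Or.inl rfl
  obtain ⟨k, hk, hm⟩ := S.exists_min_image θ hne
  obtain ⟨k1, k2, k3, k4⟩ := H k hk
  have s1 := h.le k
  have w0 : 0 ≤ 1 - s := by linarith
  have sa : s * θ k ≤ θ k := mul_le_of_le_one_left k1 (by linarith)
  have hd : ∀ j ∈ S, ∀ a b, a ≤ ρ j → ρ j ≤ b → a ≤ 1 →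
      ρ k + D k j ≤ 2 - a + b * (θ j - θ k) := by
    intro j hj a b ha hb ha1
    have := h.ang' k j ((min_le_right _ _).trans hb)
    rw [abs_of_nonpos (sub_nonpos.2 (hm j hj)), neg_sub] at this
    rcases abs_cases (ρ k - ρ j) with ⟨h5, -⟩ | ⟨h5, -⟩ <;> linarith [h.le j]
  rcases le_total (21 / 20) (θ k) with h2 | h2
  · have e1 := mul_le_mul_of_nonneg_left h2 w0
    have e2 := mul_le_mul_of_nonneg_left hL w0
    refine W.step hk (fun j => ρ j ≤ 1 - 2 / 5 * (1 - s)) (by linarith)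
      (h.hs s (1 - 2 / 5 * (1 - s)) L fun j hj => ?_)
      (h.hr (1 - 2 / 5 * (1 - s)) L fun j hj => ?_)
    · obtain ⟨b1, b2⟩ := mem_of_left hj
      obtain ⟨-, d2, d3, -⟩ := H j b1
      have := hd j b1 s _ d3 b2 (by linarith)
      exact ⟨d2, d3, b2, by nlinarith⟩
    · obtain ⟨b1, b2⟩ := mem_of_left hj
      obtain ⟨-, d2, -, -⟩ := H j b1
      have := hd j b1 _ 1 (not_le.1 b2).le (h.le j) (by linarith)
      exact ⟨d2, (not_le.1 b2).le, by nlinarith⟩
  · have e1 := mul_nonneg w0 k1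
    have e2 := mul_nonneg (show 0 ≤ 2 * s - 1 by linarith) (sub_nonneg.2 h2)
    refine W.step hk (fun j => θ j ≤ L - 21 / 8 * (1 - s) + (1 - s) * θ k) (by linarith)
      (h.hr s (L - 21 / 8 * (1 - s) + (1 - s) * θ k) fun j hj => ?_)
      (h.orig (L - 21 / 8 * (1 - s) + (1 - s) * θ k) L (2 + s * θ k) (by linarith)
        (fun j hj => ?_) (by nlinarith))
    · obtain ⟨b1, b2⟩ := mem_of_left hj
      obtain ⟨-, -, d3, -⟩ := H j b1
      have := hd j b1 s 1 d3 (h.le j) (by linarith)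
      exact ⟨b2, d3, by nlinarith⟩
    · obtain ⟨b1, b2⟩ := mem_of_left hj
      exact ⟨(not_le.1 b2).le, (H j b1).2.1, by linarith [h.org k j]⟩

/-- one robot at the inner corner wakes a half annulus -/
theorem Cone.half (h : Cone D ρ θ) {L r : ℝ} (hL : 18 / 5 ≤ L) (hL4 : L ≤ 4)
    (H : ∀ i ∈ S, 0 ≤ θ i ∧ θ i ≤ L ∧ r ≤ ρ i ∧ f i ≤ ρ i + r * θ i ∧ f i ≤ ρ i + 2 * r) :
    W D f S (1 + L) := by
  rcases S.eq_empty_or_nonempty with rfl | hne
  · exact Or.inl rfl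
  obtain ⟨k, hk, hm⟩ := S.exists_min_image ρ hne
  have hr := (H k hk).2.2.1
  have H' : ∀ i ∈ S, 0 ≤ θ i ∧ θ i ≤ L ∧ ρ k ≤ ρ i ∧ f i ≤ ρ i + ρ k * θ i := fun i hi => by
    obtain ⟨a1, a2, -, a4, -⟩ := H i hi
    have := mul_le_mul_of_nonneg_right hr a1
    exact ⟨a1, a2, hm i hi, by linarith⟩
  rcases le_total (ρ k) (3 / 8) with h1 | h1
  · exact h.thick hL hL4 hk h1 (by linarith [(H k hk).2.2.2.2])
      fun i hi => ⟨(H i hi).1, (H i hi).2.1⟩
  rcases le_total (ρ k) (27 / 50) with h2 | h2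
  · exact h.mid hL h1 h2 H'
  · exact h.thin hL h2 H'

/-- the whole disk: wake the nearest point `a`, then one half each -/
theorem Cone.disk (h : Cone D ρ θ) {L : ℝ} (hL : 18 / 5 ≤ L) (hL4 : L ≤ 4) {a : α} (ha : a ∈ S)
    (H : ∀ i ∈ S, 0 ≤ θ i ∧ θ i ≤ 2 * L ∧ ρ a ≤ ρ i ∧ D a i ≤ ρ i - ρ a + ρ a * θ i ∧
      D a i ≤ ρ i - ρ a + ρ a * (2 * L - θ i)) : W D ρ S (1 + L) := by
  refine W.step ha (fun j => θ j ≤ L) (by linarith [h.le a]) (h.half (r := ρ a) hL hL4 fun j hj => ?_)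
    ((h.flip (2 * L)).half (r := ρ a) hL hL4 fun j hj => ?_)
  · obtain ⟨b1, b2⟩ := mem_of_left hj
    obtain ⟨c1, -, c3, c4, -⟩ := H j b1
    exact ⟨c1, b2, c3, by linarith, by linarith [h.org a j]⟩
  · obtain ⟨b1, b2⟩ := mem_of_left hj
    obtain ⟨-, c2, c3, -, c5⟩ := H j b1
    exact ⟨by linarith, by linarith [not_le.1 b2], c3, by linarith, by linarith [h.org a j]⟩

end Pool.Agent.MP_1037db_co

end

-- part MP_1037db_co.Arc
section

/-! Arc length coordinates and the bound for the makespan. -/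

namespace Pool.Agent.MP_1037db_co

open Real

variable {η : Seminorm ℝ (ℝ × ℝ)}

/-- lengths of the polygonal lines from the angle `s` to the angle `t` -/
def chains (η : ℝ × ℝ → ℝ) (s t : ℝ) : Set ℝ :=
  {x | ∃ (k : ℕ) (τ : ℕ → ℝ), Monotone τ ∧ τ 0 = s ∧ τ k = t ∧
    x = ∑ i ∈ Finset.range k, η (dir η (τ (i + 1)) - dir η (τ i))}

theorem chains_self (s : ℝ) : (0 : ℝ) ∈ chains η s s :=
  ⟨0, fun _ => s, monotone_const, rfl, rfl, by simp⟩

theorem chains_append {s t t' x : ℝ} (h : x ∈ chains η s t) (ht : t ≤ t') :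
    x + η (dir η t' - dir η t) ∈ chains η s t' := by
  obtain ⟨k, τ, h1, h2, h3, rfl⟩ := h
  refine ⟨k + 1, fun i => if i ≤ k then τ i else t', fun i j hij => ?_, by simp [h2], by simp, ?_⟩
  · by_cases c1 : j ≤ k
    · simp only [if_pos c1, if_pos (hij.trans c1)]
      exact h1 hij
    · by_cases c2 : i ≤ k
      · simp only [if_neg c1, if_pos c2]
        exact ((h1 c2).trans_eq h3).trans ht
      · simp only [if_neg c1, if_neg c2, le_refl]
  · rw [Finset.sum_range_succ]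
    congr 1
    · refine Finset.sum_congr rfl fun i hi => ?_
      have := Finset.mem_range.1 hi
      simp only [if_pos (show i + 1 ≤ k by omega), if_pos this.le]
    · simp [h3]

theorem chains_le (hη : ∀ x, η x = 0 → x = 0) {s t x : ℝ} (ht : t ≤ s + π)
    (h : x ∈ chains η s t) : x ≤ Per η := by
  obtain ⟨k, τ, h1, h2, h3, rfl⟩ := h
  exact le_per hη h1 (by rw [h2, h3]; exact ht)

/-- arc length from the angle `s` to the angle `t` -/
noncomputable def arcl (η : ℝ × ℝ → ℝ) (s t : ℝ) : ℝ := sSup (chains η s t)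

theorem arcl_step (hη : ∀ x, η x = 0 → x = 0) {s t t' : ℝ} (h0 : s ≤ t) (h1 : t ≤ t')
    (h2 : t' ≤ s + π) : η (dir η t' - dir η t) ≤ arcl η s t' - arcl η s t := by
  have : arcl η s t ≤ arcl η s t' - η (dir η t' - dir η t) :=
    csSup_le ⟨_, chains_append (chains_self s) h0⟩ fun x hx => le_sub_iff_add_le.2
      (le_csSup ⟨Per η, fun _ hy => chains_le hη h2 hy⟩ (chains_append hx h1))
  linarith

theorem arcl_ge (hη : ∀ x, η x = 0 → x = 0) {s t : ℝ} (h0 : s ≤ t) (h2 : t ≤ s + π) :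
    η (dir η t - dir η s) ≤ arcl η s t := by
  have := le_csSup ⟨Per η, fun _ hy => chains_le hη h2 hy⟩ (chains_append (chains_self s) h0)
  rwa [zero_add] at this

theorem arcl_rest (hη : ∀ x, η x = 0 → x = 0) {s t : ℝ} (h0 : s ≤ t) (h2 : t ≤ s + π) :
    η (dir η (s + π) - dir η t) ≤ Per η - arcl η s t := by
  have h3 : arcl η s (s + π) ≤ Per η :=
    csSup_le ⟨_, chains_append (chains_self s) (h0.trans h2)⟩ fun x hx => chains_le hη le_rfl hx
  linarith [arcl_step hη h0 h2 le_rfl]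

/-- arc length coordinate on the whole circle -/
noncomputable def crd (η : ℝ × ℝ → ℝ) (L s t : ℝ) : ℝ :=
  if t ≤ s + π then arcl η s t else L + arcl η (s + π) t

theorem crd_step (hη : ∀ x, η x = 0 → x = 0) {L s t t' : ℝ} (hL : Per η ≤ L) (h0 : s ≤ t)
    (h1 : t ≤ t') (h2 : t' ≤ s + π + π) :
    η (dir η t' - dir η t) ≤ crd η L s t' - crd η L s t := by
  unfold crd
  split_ifs with c1 c2 c2
  · exact arcl_step hη h0 h1 c1
  · exact absurd (h1.trans c1) c2
  · have a1 := arcl_rest hη h0 c2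
    have a2 := arcl_ge hη (not_le.1 c1).le h2
    have a3 := map_add_le_add η (dir η t' - dir η (s + π)) (dir η (s + π) - dir η t)
    rw [sub_add_sub_cancel] at a3
    linarith
  · linarith [arcl_step hη (not_le.1 c2).le h1 h2]

theorem crd_start (hη : ∀ x, η x = 0 → x = 0) {L s : ℝ} : 0 ≤ crd η L s s := by
  rw [crd, if_pos (by linarith [pi_pos])]
  exact (apply_nonneg η _).trans (arcl_ge hη le_rfl (by linarith [pi_pos]))

theorem crd_end (hη : ∀ x, η x = 0 → x = 0) {L s : ℝ} (hL : Per η ≤ L) :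
    crd η L s (s + π + π) ≤ 2 * L := by
  rw [crd, if_neg (by linarith [pi_pos])]
  have := arcl_rest hη (s := s + π) (t := s + π + π) (by linarith [pi_pos]) le_rfl
  linarith [apply_nonneg η (dir η (s + π + π) - dir η (s + π + π))]

theorem exists_angle (hη : ∀ x, η x = 0 → x = 0) (q : ℝ × ℝ) (s : ℝ) :
    ∃ t, s ≤ t ∧ t ≤ s + π + π ∧ q = η q • dir η t := by
  set z : ℂ := ⟨q.1, q.2⟩ with hz
  obtain ⟨h1, h2⟩ := toIcoMod_mem_Ico two_pi_pos s z.arg
  refine ⟨toIcoMod two_pi_pos s z.arg, h1, by linarith, ?_⟩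
  have e : toIcoMod two_pi_pos s z.arg = z.arg - toIcoDiv two_pi_pos s z.arg * (2 * π) := by
    rw [← zsmul_eq_mul]; rfl
  set t := toIcoMod two_pi_pos s z.arg
  have hq : q = ‖z‖ • ((cos t, sin t) : ℝ × ℝ) := by
    rw [e, cos_sub_int_mul_two_pi, sin_sub_int_mul_two_pi]
    exact Prod.ext (Complex.norm_mul_cos_arg z).symm (Complex.norm_mul_sin_arg z).symm
  have h3 : η q = ‖z‖ * η (cos t, sin t) := by
    conv_lhs => rw [hq]
    exact smul_nn η (norm_nonneg _) _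
  rw [h3, dir, smul_smul, mul_assoc, mul_inv_cancel₀ (eta_pos hη t).ne', mul_one]
  exact hq

theorem polar_le {a b : ℝ} (ha : 0 ≤ a) (hab : a ≤ b) {u w : ℝ × ℝ} (hw : η w = 1) :
    η (b • w - a • u) ≤ b - a + a * η (w - u) := by
  have e : b • w - a • u = (b - a) • w + a • (w - u) := by module
  have := comb_le η (sub_nonneg.2 hab) ha w (w - u)
  rwa [← e, hw, mul_one] at this

theorem span_eq {α : Type} (η : ℝ × ℝ → ℝ) (p : α → ℝ × ℝ) (T : BinaryTree α) :
    ∀ k, span η p (p k) T = sp (fun i j => η (p j - p i)) k T := by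
  induction T with
  | nil => exact fun _ => rfl
  | node i l r h1 h2 => intro k; rw [span, sp, h1, h2]

theorem main (hη : ∀ x, η x = 0 → x = 0) {α : Type} [Fintype α] [DecidableEq α]
    (p : α → ℝ × ℝ) (hp : ∀ i, η (p i) ≤ 1) {L : ℝ} (hL : 18 / 5 ≤ L) (hL4 : L ≤ 4)
    (hP : Per η ≤ L) :
    ∃ T : BinaryTree α, labels T = Finset.univ.val ∧ span η p 0 T ≤ 1 + L := by
  rcases (Finset.univ : Finset α).eq_empty_or_nonempty with h | hne
  · exact ⟨.nil, by rw [h]; rfl, by rw [span]; linarith⟩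
  obtain ⟨a, ha, hm⟩ := Finset.univ.exists_min_image (fun i => η (p i)) hne
  obtain ⟨s, -, -, hs⟩ := exists_angle hη (p a) 0
  choose t t1 t2 ht using fun i => exists_angle hη (p i) s
  have hd : ∀ i j, η (dir η (t j) - dir η (t i)) ≤ |crd η L s (t i) - crd η L s (t j)| := by
    intro i j
    rcases le_total (t i) (t j) with h | h
    · rw [abs_sub_comm]
      exact (crd_step hη hP (t1 i) h (t2 j)).trans (le_abs_self _)
    · rw [map_sub_rev]
      exact (crd_step hη hP (t1 j) h (t2 i)).trans (le_abs_self _)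
  have hh : ∀ i j, η (p i) ≤ η (p j) → η (p j - p i) ≤
      η (p j) - η (p i) + η (p i) * |crd η L s (t i) - crd η L s (t j)| := by
    intro i j h
    have := polar_le (u := dir η (t i)) (apply_nonneg η (p i)) h (eta_dir hη (t j))
    rw [← ht, ← ht] at this
    linarith [mul_le_mul_of_nonneg_left (hd i j) (apply_nonneg η (p i))]
  have hC : Cone (fun i j => η (p j - p i)) (fun i => η (p i)) fun i => crd η L s (t i) := by
    refine ⟨fun i => apply_nonneg η _, hp, fun i j => ?_, fun i j => ?_⟩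
    · rcases le_total (η (p i)) (η (p j)) with h | h
      · rw [min_eq_left h, abs_of_nonpos (sub_nonpos.2 h), neg_sub]
        exact hh i j h
      · rw [min_eq_right h, abs_of_nonneg (sub_nonneg.2 h), map_sub_rev, abs_sub_comm]
        exact hh j i h
    · rw [add_comm]
      exact map_sub_le_add η _ _
  have hW := hC.disk hL hL4 ha fun i _ => by
    have a1 := crd_step hη hP le_rfl (t1 i) (t2 i)
    have a2 := crd_step hη hP (t1 i) (t2 i) le_rfl
    have a3 := crd_start hη (L := L) (s := s)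
    have a4 := crd_end hη (s := s) hP
    rw [dir_add_pi, dir_add_pi, neg_neg, map_sub_rev] at a2
    have a5 := polar_le (u := dir η s) (apply_nonneg η (p a)) (hm i (Finset.mem_univ i))
      (eta_dir hη (t i))
    rw [← ht, ← hs] at a5
    have a6 := apply_nonneg η (dir η (t i) - dir η s)
    have a7 := mul_le_mul_of_nonneg_left (show η (dir η (t i) - dir η s) ≤ crd η L s (t i) by
      linarith) (apply_nonneg η (p a))
    have a8 := mul_le_mul_of_nonneg_left (show η (dir η (t i) - dir η s) ≤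
      2 * L - crd η L s (t i) by linarith) (apply_nonneg η (p a))
    exact ⟨by linarith, by linarith, hm i (Finset.mem_univ i), by linarith, by linarith⟩
  rcases hW with h | ⟨i, l, r, h1, h2⟩
  · exact absurd h hne.ne_empty
  · exact ⟨.node i l r, h1, by rw [span, span_eq, span_eq, sub_zero]; exact h2⟩

end Pool.Agent.MP_1037db_co

end
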