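import Pool.Agent.MP_1037db_co.Mg.Arc

/-! Consequences: the universal bound `5`; hexagonal norms. -/

namespace Pool.Agent.MP_1037db_co

open Real

variable {η : Seminorm ℝ (ℝ × ℝ)}

theorem main_per (hη : ∀ x, η x = 0 → x = 0) {α : Type} [Fintype α] [DecidableEq α]
    (p : α → ℝ × ℝ) (hp : ∀ i, η (p i) ≤ 1) :
    ∃ T : BinaryTree α, labels T = Finset.univ.val ∧ span η p 0 T ≤ 1 + max (18 / 5) (Per η) :=
  main hη p hp (le_max_left _ _) (max_le (by norm_num) (per_le_four hη)) (le_max_right _ _)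

/-- the wake-up ratio of every norm is at most `5` -/
theorem five (hη : ∀ x, η x = 0 → x = 0) {α : Type} [Fintype α] [DecidableEq α]
    (p : α → ℝ × ℝ) (hp : ∀ i, η (p i) ≤ 1) :
    ∃ T : BinaryTree α, labels T = Finset.univ.val ∧ span η p 0 T ≤ 5 := by
  simpa only [show (1 : ℝ) + 4 = 5 by norm_num] using
    main hη p hp (L := 4) (by norm_num) le_rfl (per_le_four hη)

/-- for a hexagonal norm the half perimeter is at most `Lam` -/
theorem per_hexagon {a b : ℝ} (hb : 0 ≤ b) (hba : b ≤ a) (ha : a ≤ 1) (hab : 1 ≤ a + b)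
    (h : ∀ w, η w = max |w.1| (max |w.2| |a * w.1 - b * w.2|)) : Per η ≤ Lam η := by
  have a0 : 0 < a := by linarith
  have e1 : ∀ w, |w.1| ≤ η w := fun w => h w ▸ le_max_left _ _
  have e2 : ∀ w, |w.2| ≤ η w := fun w => h w ▸ (le_max_left _ _).trans (le_max_right _ _)
  have e3 : ∀ w, |a * w.1 - b * w.2| ≤ η w := fun w =>
    h w ▸ (le_max_right _ _).trans (le_max_right _ _)
  have hη : ∀ x, η x = 0 → x = 0 := fun x hx =>
    Prod.ext (abs_nonpos_iff.1 (hx ▸ e1 x)) (abs_nonpos_iff.1 (hx ▸ e2 x))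
  have dom : ∀ w, η w ≤ 1 / 2 * |w.1| + (1 - b / (2 * a)) * |w.2| +
      1 / (2 * a) * |a * w.1 - b * w.2| := by
    intro w
    have c1 : a * |w.1| ≤ |a * w.1 - b * w.2| + b * |w.2| := by
      have := abs_add_le (a * w.1 - b * w.2) (b * w.2)
      rwa [sub_add_cancel, abs_mul, abs_mul, abs_of_pos a0, abs_of_nonneg hb] at this
    have c2 : b * |w.2| ≤ a * |w.1| + |a * w.1 - b * w.2| := by
      have := abs_sub (a * w.1) (a * w.1 - b * w.2)
      rwa [sub_sub_cancel, abs_mul, abs_mul, abs_of_pos a0, abs_of_nonneg hb] at this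
    have c3 : |a * w.1 - b * w.2| ≤ a * |w.1| + b * |w.2| := by
      have := abs_sub (a * w.1) (b * w.2)
      rwa [abs_mul, abs_mul, abs_of_pos a0, abs_of_nonneg hb] at this
    have c4 : 2 * a * η w ≤ a * |w.1| + (2 * a - b) * |w.2| + |a * w.1 - b * w.2| := by
      have x0 := abs_nonneg w.1
      have y0 := abs_nonneg w.2
      rw [h w]
      rcases max_cases |w.1| (max |w.2| |a * w.1 - b * w.2|) with ⟨m1, -⟩ | ⟨m1, -⟩
      · rw [m1]; nlinarith [mul_nonneg y0 (sub_nonneg.2 hba)]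
      rw [m1]
      rcases max_cases |w.2| |a * w.1 - b * w.2| with ⟨m2, -⟩ | ⟨m2, -⟩
      · rw [m2]; linarith
      · rw [m2]
        nlinarith [mul_le_mul_of_nonneg_left c3 (show 0 ≤ 2 * a - 1 by linarith),
          mul_nonneg (mul_nonneg a0.le x0) (sub_nonneg.2 ha),
          mul_nonneg (mul_nonneg a0.le y0) (show 0 ≤ 1 - b by linarith)]
    refine le_of_mul_le_mul_left (c4.trans_eq ?_) (show 0 < 2 * a by linarith)
    field_simp
  have hL : 3 + (1 - b) / a ≤ Lam η := by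
    have t0 : 0 ≤ (1 - b) / a := div_nonneg (by linarith) a0.le
    have t1 : (1 - b) / a ≤ 1 := (div_le_one a0).2 (by linarith)
    have t2 : a * ((1 - b) / a) = 1 - b := mul_div_cancel₀ _ a0.ne'
    have u1 : η (1, 1) ≤ 1 := by
      rw [h]
      exact max_le (by simp) (max_le (by simp) (abs_le.2 ⟨by linarith, by linarith⟩))
    have u2 : η (-((1 - b) / a), 1) ≤ 1 := by
      rw [h]
      exact max_le (abs_le.2 ⟨by linarith, by linarith⟩)
        (max_le (by simp) (abs_le.2 ⟨by linarith, by linarith⟩))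
    have u3 := le_Lam η u1 u2
    have u4 := (le_abs_self _).trans (e2 ((1, 1) + (-((1 - b) / a), 1)))
    have u5 := (le_abs_self _).trans (e1 ((1, 1) - (-((1 - b) / a), 1)))
    simp only [Prod.snd_add, Prod.fst_sub] at u4 u5
    linarith
  refine per_le fun k τ h1 h2 => le_trans ?_ hL
  have v1 := var_le hη (LinearMap.fst ℝ ℝ ℝ) h1 h2 fun i _ => (e1 _).trans_eq (eta_dir hη _)
  have v2 := var_le hη (LinearMap.snd ℝ ℝ ℝ) h1 h2 fun i _ => (e2 _).trans_eq (eta_dir hη _)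
  have v3 := var_le hη (a • LinearMap.fst ℝ ℝ ℝ - b • LinearMap.snd ℝ ℝ ℝ) h1 h2
    fun i _ => (e3 _).trans_eq (eta_dir hη _)
  have b0 : 0 ≤ 1 - b / (2 * a) := sub_nonneg.2 ((div_le_one (by linarith)).2 (by linarith))
  have s1 := Finset.sum_le_sum (s := Finset.range k) fun i _ =>
    dom (dir η (τ (i + 1)) - dir η (τ i))
  rw [Finset.sum_add_distrib, Finset.sum_add_distrib, ← Finset.mul_sum, ← Finset.mul_sum,
    ← Finset.mul_sum] at s1
  have s2 := mul_le_mul_of_nonneg_left v2 b0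
  have s3 := mul_le_mul_of_nonneg_left v3 (show 0 ≤ 1 / (2 * a) by positivity)
  have s4 : 1 + (1 - b / (2 * a)) * (2 * 1) + 1 / (2 * a) * (2 * 1) = 3 + (1 - b) / a := by
    field_simp
    ring
  simp only [LinearMap.fst_apply, LinearMap.snd_apply, LinearMap.sub_apply, LinearMap.smul_apply,
    smul_eq_mul] at v1 s2 s3
  linarith

/-- the conjectured value for hexagonal norms with `Lam ≥ 18 / 5` -/
theorem hexagon {a b : ℝ} (hb : 0 ≤ b) (hba : b ≤ a) (ha : a ≤ 1) (hab : 1 ≤ a + b)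
    (h : ∀ w, η w = max |w.1| (max |w.2| |a * w.1 - b * w.2|)) (hη : ∀ x, η x = 0 → x = 0)
    (hL : 18 / 5 ≤ Lam η) {α : Type} [Fintype α] [DecidableEq α] (p : α → ℝ × ℝ)
    (hp : ∀ i, η (p i) ≤ 1) :
    ∃ T : BinaryTree α, labels T = Finset.univ.val ∧ span η p 0 T ≤ 1 + Lam η := by
  obtain ⟨T, h1, h2⟩ := main_per hη p hp
  exact ⟨T, h1, h2.trans (add_le_add_right (max_le hL (per_hexagon hb hba ha hab h)) _)⟩

end Pool.Agent.MP_1037db_co
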