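import Pool.Agent.MP_1037db_co.Mg.Arc
import Pool.Agent.MP_1037db_co.Seven

-- part MP_1037db_co.PerLam
section

/-! The half perimeter exceeds `Lam` by at most `(4 - Lam) ^ 2 / 2`. -/

namespace Pool.Agent.MP_1037db_co

open Real

variable {η : Seminorm ℝ (ℝ × ℝ)}

theorem eta_cont (η : Seminorm ℝ (ℝ × ℝ)) : Continuous η := by
  refine (LipschitzWith.of_dist_le' (K := η (1, 0) + η (0, 1)) fun x y => ?_).continuous
  have h1 : η (x - y) ≤ |(x - y).1| * η (1, 0) + |(x - y).2| * η (0, 1) := by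
    have e : x - y = (x - y).1 • ((1, 0) : ℝ × ℝ) + (x - y).2 • ((0, 1) : ℝ × ℝ) := by
      ext <;> simp
    have := map_add_le_add η ((x - y).1 • ((1, 0) : ℝ × ℝ)) ((x - y).2 • ((0, 1) : ℝ × ℝ))
    rwa [← e, map_smul_eq_mul, map_smul_eq_mul] at this
  have h2 : |(x - y).1| ≤ dist x y := by
    rw [dist_eq_norm]; exact norm_fst_le (x - y)
  have h3 : |(x - y).2| ≤ dist x y := by
    rw [dist_eq_norm]; exact norm_snd_le (x - y)
  have h4 := abs_sub_map_le_sub η x y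
  rw [Real.dist_eq]
  nlinarith [mul_le_mul_of_nonneg_right h2 (apply_nonneg η (1, 0)),
    mul_le_mul_of_nonneg_right h3 (apply_nonneg η (0, 1))]

theorem dir_cont (hη : ∀ x, η x = 0 → x = 0) : Continuous (dir η) :=
  (((eta_cont η).comp (continuous_cos.prodMk continuous_sin)).inv₀
    fun t => (eta_pos hη t).ne').smul (continuous_cos.prodMk continuous_sin)

/-- an Auerbach basis -/
theorem auerbach (hη : ∀ x, η x = 0 → x = 0) : ∃ (u v : ℝ × ℝ) (X Y : ℝ × ℝ →ₗ[ℝ] ℝ), η u = 1 ∧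
    η v = 1 ∧ (∀ w, w = X w • u + Y w • v) ∧ (∀ w, |X w| ≤ η w) ∧ (∀ w, |Y w| ≤ η w) ∧
    X u = 1 ∧ X v = 0 := by
  have hc : Continuous fun q : ℝ × ℝ => |det (dir η q.1) (dir η q.2)| := by
    have h1 := (dir_cont hη).comp (continuous_fst : Continuous fun q : ℝ × ℝ => q.1)
    have h2 := (dir_cont hη).comp (continuous_snd : Continuous fun q : ℝ × ℝ => q.2)
    exact ((h1.fst.mul h2.snd).sub (h1.snd.mul h2.fst)).abs
  have h0 : (0 : ℝ) ≤ 0 + π + π := by linarith [pi_pos]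
  obtain ⟨⟨a, b⟩, -, hmax⟩ := ((isCompact_Icc (a := (0 : ℝ)) (b := 0 + π + π)).prod
    (isCompact_Icc (a := (0 : ℝ)) (b := 0 + π + π))).exists_isMaxOn
    ⟨(0, 0), ⟨le_rfl, h0⟩, le_rfl, h0⟩ hc.continuousOn
  set δ := det (dir η a) (dir η b) with hδ
  have hb : ∀ w w', |det w w'| ≤ η w * η w' * |δ| := by
    intro w w'
    obtain ⟨t, t1, t2, ht⟩ := exists_angle hη w 0
    obtain ⟨t', t1', t2', ht'⟩ := exists_angle hη w' 0
    have h1 : |det (dir η t) (dir η t')| ≤ |δ| := hmax (a := (t, t')) ⟨⟨t1, t2⟩, t1', t2'⟩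
    have h2 : det w w' = η w * η w' * det (dir η t) (dir η t') := by
      conv_lhs => rw [ht, ht']
      simp only [det, Prod.smul_fst, Prod.smul_snd, smul_eq_mul]
      ring
    have h3 := mul_nonneg (apply_nonneg η w) (apply_nonneg η w')
    rw [h2, abs_mul, abs_of_nonneg h3]
    exact mul_le_mul_of_nonneg_left h1 h3
  have hpos : 0 < |δ| := by
    refine lt_of_le_of_ne (abs_nonneg _) fun h => ?_
    have := hb (1, 0) (0, 1)
    rw [← h] at this
    norm_num [det] at this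
  have hδ0 : δ ≠ 0 := abs_pos.1 hpos
  refine ⟨dir η a, dir η b, detL (dir η b) (-δ), detL (dir η a) δ, eta_dir hη _, eta_dir hη _,
    fun w => ?_, fun w => ?_, fun w => ?_, ?_, ?_⟩
  · change w = (det _ _ / -δ) • dir η a + (det _ _ / δ) • dir η b
    ext
    · simp only [Prod.fst_add, Prod.smul_fst, smul_eq_mul]
      field_simp
      simp only [hδ, det]
      ring
    · simp only [Prod.snd_add, Prod.smul_snd, smul_eq_mul]
      field_simp
      simp only [hδ, det]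
      ring
  · change |det _ _ / -δ| ≤ _
    rw [abs_div, abs_neg, div_le_iff₀ hpos]
    simpa only [eta_dir hη, one_mul] using hb (dir η b) w
  · change |det _ _ / δ| ≤ _
    rw [abs_div, div_le_iff₀ hpos]
    simpa only [eta_dir hη, one_mul] using hb (dir η a) w
  · change det _ _ / -δ = 1
    field_simp
    simp only [hδ, det]
    ring
  · change det _ _ / -δ = 0
    simp only [det]
    ring

theorem ineq_cut {P Q M N D : ℝ} (hP : 0 ≤ P) (hQ : 0 ≤ Q) (hP1 : P ≤ 1) (hQ1 : Q ≤ 1)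
    (h1 : 1 ≤ M + P) (h2 : 1 ≤ N + Q) (h3 : D ≤ P + Q) (h4 : D ≤ M + N) :
    D - D ^ 2 / 2 ≤ Q * M + P * N := by
  have a1 := mul_nonneg hQ (sub_nonneg.2 h1)
  have a2 := mul_nonneg hP (sub_nonneg.2 h2)
  rcases le_total (P + Q) (2 - D) with h | h
  · nlinarith [mul_nonneg (sub_nonneg.2 h3) (sub_nonneg.2 h), sq_nonneg (P - Q)]
  rcases le_total P Q with h5 | h5
  · nlinarith [mul_nonneg hP (sub_nonneg.2 h4), mul_nonneg (sub_nonneg.2 h5) (sub_nonneg.2 h1),
      sq_nonneg (D - 2 * (1 - P)), sq_nonneg (D - 2 * (1 - P) + (1 - Q)),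
      mul_nonneg (sub_nonneg.2 hQ1) (sub_nonneg.2 h), mul_nonneg (sub_nonneg.2 hP1) (sub_nonneg.2 h),
      sq_nonneg (P - Q), mul_nonneg (sub_nonneg.2 hQ1) (sub_nonneg.2 h5)]
  · nlinarith [mul_nonneg hQ (sub_nonneg.2 h4), mul_nonneg (sub_nonneg.2 h5) (sub_nonneg.2 h2),
      sq_nonneg (D - 2 * (1 - Q)), sq_nonneg (D - 2 * (1 - Q) + (1 - P)),
      mul_nonneg (sub_nonneg.2 hQ1) (sub_nonneg.2 h), mul_nonneg (sub_nonneg.2 hP1) (sub_nonneg.2 h),
      sq_nonneg (P - Q), mul_nonneg (sub_nonneg.2 hP1) (sub_nonneg.2 h5)]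

theorem exists_extreme (hη : ∀ x, η x = 0 → x = 0) (f : ℝ × ℝ →ₗ[ℝ] ℝ) (k : ℕ) (τ : ℕ → ℝ) :
    ∃ z, η z = 1 ∧ ∀ i ≤ k, |f (dir η (τ i))| ≤ f z := by
  obtain ⟨m, -, hmax⟩ := (Finset.range (k + 1)).exists_max_image
    (fun i => |f (dir η (τ i))|) ⟨0, by simp⟩
  have hx : ∀ i ≤ k, |f (dir η (τ i))| ≤ |f (dir η (τ m))| := fun i hi =>
    hmax i (Finset.mem_range.2 (Nat.lt_succ_iff.2 hi))
  rcases abs_cases (f (dir η (τ m))) with ⟨h, -⟩ | ⟨h, -⟩
  · exact ⟨_, eta_dir hη _, fun i hi => h ▸ hx i hi⟩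
  · exact ⟨-dir η (τ m), by rw [map_neg_eq_map, eta_dir hη], fun i hi => by
      rw [map_neg, ← h]; exact hx i hi⟩

theorem per_le_lam (hη : ∀ x, η x = 0 → x = 0) {B : ℝ} (hB : Lam η ≤ B) :
    Per η ≤ B + (4 - B) ^ 2 / 2 := by
  obtain ⟨u, v, X, Y, hu, hv, hw, hX, hY, x1, x2⟩ := auerbach hη
  have tri : ∀ {a b : ℝ} {x y w : ℝ × ℝ}, w = a • x + b • y → η w ≤ |a| * η x + |b| * η y := by
    intro a b x y w e
    have := map_add_le_add η (a • x) (b • y)
    rwa [← e, map_smul_eq_mul, map_smul_eq_mul] at this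
  set p := η (u + v) with hp
  set q := η (u - v) with hq
  have pq : p + q ≤ B := (le_Lam η hu.le hv.le).trans hB
  have p1 : 1 ≤ p := by simpa [x1, x2] using hX (u + v)
  have q1 : 1 ≤ q := by simpa [x1, x2] using hX (u - v)
  have p2 : p ≤ 2 := by linarith [map_add_le_add η u v]
  have q2 : q ≤ 2 := by linarith [map_sub_le_add η u v]
  have dom : ∀ w, η w ≤ ((p + q) / 2 - 1) * (|X w| + |Y w|) + (1 - q / 2) * |(X + Y) w| +
      (1 - p / 2) * |(X - Y) w| := by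
    intro w
    have e := hw w
    rw [LinearMap.add_apply, LinearMap.sub_apply]
    generalize X w = x at e ⊢
    generalize Y w = y at e ⊢
    have b1 := tri (show w = y • (u + v) + (x - y) • u by rw [e]; module)
    have b2 := tri (show w = x • (u + v) + (-(x - y)) • v by rw [e]; module)
    have b3 := tri (show w = (-y) • (u - v) + (x + y) • u by rw [e]; module)
    have b4 := tri (show w = x • (u - v) + (x + y) • v by rw [e]; module)
    rw [← hp] at b1 b2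
    rw [← hq] at b3 b4
    simp only [hu, hv, abs_neg] at b1 b2 b3 b4
    rcases abs_cases x with ⟨c1, d1⟩ | ⟨c1, d1⟩ <;> rcases abs_cases y with ⟨c2, d2⟩ | ⟨c2, d2⟩ <;>
      rcases abs_cases (x + y) with ⟨c3, d3⟩ | ⟨c3, d3⟩ <;>
      rcases abs_cases (x - y) with ⟨c4, d4⟩ | ⟨c4, d4⟩ <;>
      simp only [c1, c2, c3, c4] at b1 b2 b3 b4 ⊢ <;> linarith
  refine per_le fun k τ h1 h2 => ?_
  obtain ⟨z, hz, hm⟩ := exists_extreme hη (X + Y) k τ
  obtain ⟨z', hz', hm'⟩ := exists_extreme hη (X - Y) k τ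
  have v1 := var_le hη X h1 h2 fun i _ => (hX _).trans_eq (eta_dir hη _)
  have v2 := var_le hη Y h1 h2 fun i _ => (hY _).trans_eq (eta_dir hη _)
  have v3 := var_le hη (X + Y) h1 h2 hm
  have v4 := var_le hη (X - Y) h1 h2 hm'
  obtain ⟨-, a1⟩ := abs_le.1 ((hX z).trans_eq hz)
  obtain ⟨-, a2⟩ := abs_le.1 ((hY z).trans_eq hz)
  obtain ⟨-, a3⟩ := abs_le.1 ((hX z').trans_eq hz')
  obtain ⟨a4, -⟩ := abs_le.1 ((hY z').trans_eq hz')
  have c1 : p ≤ 1 + ((1 - X z) + (1 - Y z)) := by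
    have e : u + v = z + ((1 - X z) • u + (1 - Y z) • v) := by
      conv_rhs => enter [1]; rw [hw z]
      module
    have := map_add_le_add η z ((1 - X z) • u + (1 - Y z) • v)
    have := comb_le η (sub_nonneg.2 a1) (sub_nonneg.2 a2) u v
    rw [← e, hu, hv, hz] at *
    linarith
  have c2 : q ≤ 1 + ((1 - X z') + (1 + Y z')) := by
    have e : u - v = z' + ((1 - X z') • u + (1 + Y z') • (-v)) := by
      conv_rhs => enter [1]; rw [hw z']
      module
    have := map_add_le_add η z' ((1 - X z') • u + (1 + Y z') • (-v))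
    have := comb_le η (sub_nonneg.2 a3) (show 0 ≤ 1 + Y z' by linarith) u (-v)
    rw [← e, map_neg_eq_map, hu, hv, hz'] at *
    linarith
  have c3 : X z + X z' + (Y z - Y z') ≤ B := by
    have b1 := (le_abs_self _).trans (hX (z + z'))
    have b2 := (le_abs_self _).trans (hY (z - z'))
    rw [map_add] at b1
    rw [map_sub] at b2
    linarith [le_Lam η hz.le hz'.le]
  have s1 := Finset.sum_le_sum (s := Finset.range k) fun i _ =>
    dom (dir η (τ (i + 1)) - dir η (τ i))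
  rw [Finset.sum_add_distrib, Finset.sum_add_distrib, ← Finset.mul_sum, ← Finset.mul_sum,
    ← Finset.mul_sum, Finset.sum_add_distrib] at s1
  have s2 := mul_le_mul_of_nonneg_left (add_le_add v1 v2) (show 0 ≤ (p + q) / 2 - 1 by linarith)
  have s3 := mul_le_mul_of_nonneg_left v3 (show 0 ≤ 1 - q / 2 by linarith)
  have s4 := mul_le_mul_of_nonneg_left v4 (show 0 ≤ 1 - p / 2 by linarith)
  have s5 := ineq_cut (P := 2 - p) (Q := 2 - q) (M := 2 - (X z + Y z)) (N := 2 - (X z' - Y z'))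
    (D := 4 - B) (by linarith) (by linarith) (by linarith) (by linarith) (by linarith)
    (by linarith) (by linarith) (by linarith)
  rw [LinearMap.add_apply] at s3
  rw [LinearMap.sub_apply] at s4
  linarith

theorem lam_le_four : Lam η ≤ 4 := by
  refine csSup_le ⟨_, 0, 0, by simp, by simp, rfl⟩ ?_
  rintro s ⟨u, v, hu, hv, rfl⟩
  linarith [map_add_le_add η u v, map_sub_le_add η u v]

end Pool.Agent.MP_1037db_co

end

-- part MP_1037db_co.Half2
section

/-! Schedules with deadline `1 + B` on a circle of length `2 L` slightly larger than `2 B`. -/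

namespace Pool.Agent.MP_1037db_co

variable {α : Type} {D : α → α → ℝ} {f : α → ℝ} {S : Finset α} {ρ θ : α → ℝ} {B L : ℝ}

/-- polar coordinates on a circle of length `2 L` -/
structure Cyc (D : α → α → ℝ) (ρ θ : α → ℝ) (L : ℝ) : Prop extends Cone D ρ θ where
  lo : ∀ i, 0 ≤ θ i
  hi : ∀ i, θ i ≤ 2 * L
  wrap : ∀ i j, D i j ≤ |ρ i - ρ j| + min (ρ i) (ρ j) * (2 * L - |θ i - θ j|)

/-- the forward angle from `b` to `j` -/
noncomputable def gap (θ : α → ℝ) (L : ℝ) (b j : α) : ℝ :=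
  if θ b ≤ θ j then θ j - θ b else θ j - θ b + 2 * L

theorem gap_self (b : α) : gap θ L b b = 0 := by simp [gap]

theorem Cyc.flip (h : Cyc D ρ θ L) : Cyc D ρ (fun i => 2 * L - θ i) L :=
  ⟨h.toCone.flip _, fun i => sub_nonneg.2 (h.hi i), fun i => by linarith [h.lo i], fun i j => by
    rw [sub_sub_sub_cancel_left, abs_sub_comm (θ j)]; exact h.wrap i j⟩

theorem Cyc.shift (h : Cyc D ρ θ L) (b : α) : Cyc D ρ (gap θ L b) L := by
  have key : ∀ i j, |gap θ L b i - gap θ L b j| = |θ i - θ j| ∨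
      |gap θ L b i - gap θ L b j| = 2 * L - |θ i - θ j| := by
    intro i j
    have := h.lo i
    have := h.lo j
    have := h.hi i
    have := h.hi j
    unfold gap
    split_ifs with c1 c2 c2
    · exact Or.inl (by congr 1; ring)
    · right
      rw [abs_of_nonpos (by linarith), abs_of_nonneg (by linarith)]
      ring
    · right
      rw [abs_of_nonneg (by linarith), abs_of_nonpos (by linarith)]
      ring
    · exact Or.inl (by congr 1; ring)
  refine ⟨⟨h.nn, h.le, fun i j => ?_, h.org⟩, fun i => ?_, fun i => ?_, fun i j => ?_⟩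
  · rcases key i j with e | e <;> rw [e]
    · exact h.ang i j
    · exact h.wrap i j
  · unfold gap
    split_ifs <;> linarith [h.lo i, h.hi b]
  · unfold gap
    split_ifs <;> linarith [h.hi i, h.lo b]
  · rcases key i j with e | e <;> rw [e]
    · exact h.wrap i j
    · rw [sub_sub_cancel]
      exact h.ang i j

theorem Cyc.start (h : Cyc D ρ θ L) {b : α} (hb : θ b = 0) (i : α) {r : ℝ}
    (hr : min (ρ b) (ρ i) ≤ r) :
    D b i ≤ |ρ b - ρ i| + r * θ i ∧ D b i ≤ |ρ b - ρ i| + r * (2 * L - θ i) := by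
  have h1 := h.ang' b i hr
  have h2 := h.wrap b i
  rw [hb, zero_sub, abs_neg, abs_of_nonneg (h.lo i)] at h1 h2
  exact ⟨h1, by linarith [mul_le_mul_of_nonneg_right hr (sub_nonneg.2 (h.hi i))]⟩

/-- among eight points two are close -/
theorem exists_close (hL : 0 < L) (hi : ∀ i, θ i ≤ 2 * L) (lo : ∀ i, 0 ≤ θ i) (hS : 8 ≤ S.card) :
    ∃ i ∈ S, ∃ j ∈ S, i ≠ j ∧ gap θ L i j ≤ L / 4 := by
  classical
  by_contra! hc
  obtain ⟨b, hb, hm⟩ := S.exists_min_image θ (Finset.card_pos.1 (by omega))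
  have h1 : ∀ k ∈ S.erase b, L / 4 < θ k - θ b ∧ θ k - θ b < 7 * (L / 4) := by
    intro k hk
    obtain ⟨k1, k2⟩ := Finset.mem_erase.1 hk
    have a1 := hc b hb k k2 k1.symm
    have a2 := hc k k2 b hb k1
    rw [gap, if_pos (hm k k2)] at a1
    rw [gap, if_neg (by linarith)] at a2
    exact ⟨a1, by linarith⟩
  have h4 : 0 < L / 4 := by linarith
  obtain ⟨x, hx, y, hy, hne, he⟩ := Finset.exists_ne_map_eq_of_card_lt_of_maps_to
    (s := S.erase b) (t := Finset.Ico (1 : ℤ) 7) (f := fun k => ⌊(θ k - θ b) / (L / 4)⌋)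
    (by rw [Finset.card_erase_of_mem hb, Int.card_Ico]; norm_num; omega) fun k hk => by
      obtain ⟨a1, a2⟩ := h1 k hk
      refine Finset.mem_coe.2 (Finset.mem_Ico.2 ⟨Int.le_floor.2 ?_, Int.floor_lt.2 ?_⟩)
      · rw [le_div_iff₀ h4]; push_cast; linarith
      · rw [div_lt_iff₀ h4]; push_cast; linarith
  have h2 := Int.abs_sub_lt_one_of_floor_eq_floor he
  rw [← sub_div, abs_div, abs_of_pos h4, div_lt_one h4, abs_lt] at h2
  have x2 := Finset.mem_of_mem_erase hx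
  have y2 := Finset.mem_of_mem_erase hy
  rcases le_total (θ x) (θ y) with h3 | h3
  · have := hc x x2 y y2 hne
    rw [gap, if_pos h3] at this
    linarith
  · have := hc y y2 x x2 hne.symm
    rw [gap, if_pos h3] at this
    linarith

variable [DecidableEq α]

theorem Cone.mid2 (h : Cone D ρ θ) {s : ℝ} (hB : 37 / 10 ≤ B) (hL : L ≤ B + 9 / 200)
    (h1 : 3 / 8 ≤ s) (h2 : s ≤ 27 / 50)
    (H : ∀ i ∈ S, 0 ≤ θ i ∧ θ i ≤ L ∧ s ≤ ρ i ∧ f i ≤ ρ i + s * θ i) : W D f S (1 + B) := by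
  rcases S.eq_empty_or_nonempty with rfl | hne
  · exact Or.inl rfl
  obtain ⟨k, hk, hm⟩ := S.exists_min_image (fun i => ρ i + θ i) hne
  obtain ⟨k1, k2, k3, k4⟩ := H k hk
  have s0 := h.nn k
  have s1 := h.le k
  have sa := mul_le_mul h2 k2 k1 (by norm_num)
  obtain ⟨c, c1, c2, c3, c4⟩ : ∃ c, 2 * ρ k + s * θ k + 69 / 200 ≤ c ∧ L - 2 ≤ c ∧
      1 / 4 + c + s * θ k - θ k + 13 / 8 * (1 - s) ≤ B ∧
      1 - ρ k ^ 2 + c + s * θ k - θ k + 13 / 8 * (1 - s) ≤ B := by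
    have h3 : 519 / 200 + 2 * (s * θ k) - θ k + 13 / 8 * (1 - s) ≤ B := by
      rcases le_total s (1 / 2) with h3 | h3
      · nlinarith [mul_nonneg k1 (sub_nonneg.2 h3)]
      · nlinarith [mul_nonneg (sub_nonneg.2 (k2.trans hL)) (sub_nonneg.2 h3),
          mul_nonneg (sub_nonneg.2 hB) (sub_nonneg.2 h2)]
    have h5 : s * θ k ≤ θ k := mul_le_of_le_one_left k1 (by linarith)
    rcases le_total (L - 2) (2 * ρ k + s * θ k + 69 / 200) with h4 | h4
    · exact ⟨_, le_rfl, h4, by linarith, by nlinarith [sq_nonneg (ρ k - 1)]⟩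
    · exact ⟨_, h4, le_rfl, by linarith, by nlinarith⟩
  refine W.step hk (fun j => θ j ≤ c) (by linarith) (h.hr s c fun j hj => ?_)
    (h.orig c L (2 * ρ k + s * θ k) (by linarith) (fun j hj => ?_) (by linarith))
  · obtain ⟨b1, b2⟩ := mem_of_left hj
    obtain ⟨-, -, d3, -⟩ := H j b1
    have d4 : ρ k + θ k ≤ ρ j + θ j := hm j b1
    have d5 := h.le j
    refine ⟨b2, d3, ?_⟩
    rcases le_total (θ j) (θ k) with h3 | h3
    · have := h.bwd (show ρ k ≤ ρ j by linarith) h3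
      have := mul_le_mul_of_nonneg_left (show θ k - θ j ≤ 1 - ρ k by linarith) s0
      nlinarith
    rcases le_total (ρ k) (ρ j) with h4 | h4
    · have := h.fwd h4 h3
      have := mul_le_of_le_one_left (sub_nonneg.2 h3) s1
      linarith
    · have := h.inw h4 h3
      have := ineq_quarter (sub_nonneg.2 h4) (show ρ k - ρ j ≤ θ j - θ k by linarith)
        (show ρ j ≤ 1 - (ρ k - ρ j) by linarith)
      linarith
  · obtain ⟨b1, b2⟩ := mem_of_left hj
    exact ⟨(not_le.1 b2).le, (H j b1).2.1, by linarith [h.org k j]⟩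

omit [DecidableEq α] in
theorem Cone.lane (h : Cone D ρ θ) {k j : α} (hm : θ k ≤ θ j) {a b : ℝ} (ha : a ≤ ρ j)
    (hb : ρ j ≤ b) (ha1 : a ≤ 1) : ρ k + D k j ≤ 2 - a + b * (θ j - θ k) := by
  have := h.ang' k j ((min_le_right _ _).trans hb)
  rw [abs_of_nonpos (sub_nonpos.2 hm), neg_sub] at this
  rcases abs_cases (ρ k - ρ j) with ⟨h5, -⟩ | ⟨h5, -⟩ <;> linarith [h.le j, h.le k]

theorem Cone.thin2 (h : Cone D ρ θ) {s : ℝ} (hB : 37 / 10 ≤ B) (hBL : B ≤ L)
    (hL : L ≤ B + 9 / 200) (h1 : 27 / 50 ≤ s) (h0 : s ≤ 181 / 200)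
    (H : ∀ i ∈ S, 0 ≤ θ i ∧ θ i ≤ L ∧ s ≤ ρ i ∧ f i ≤ ρ i + s * θ i) : W D f S (1 + B) := by
  rcases S.eq_empty_or_nonempty with rfl | hne
  · exact Or.inl rfl
  obtain ⟨k, hk, hm⟩ := S.exists_min_image θ hne
  obtain ⟨k1, k2, k3, k4⟩ := H k hk
  have s1 := h.le k
  have w0 : 0 ≤ 1 - s := by linarith
  have sa := mul_le_mul h0 k2 k1 (by norm_num)
  rcases le_total (441 / 400 * (1 - s) + 9 / 200) ((1 - s) * θ k) with h2 | h2
  · have e2 := mul_le_mul_of_nonneg_left (hB.trans hBL) w0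
    refine W.step hk (fun j => ρ j ≤ 1 - 21 / 50 * (1 - s)) (by linarith)
      (h.hs s (1 - 21 / 50 * (1 - s)) L fun j hj => ?_)
      (h.hr (1 - 21 / 50 * (1 - s)) L fun j hj => ?_)
    · obtain ⟨b1, b2⟩ := mem_of_left hj
      obtain ⟨-, d2, d3, -⟩ := H j b1
      have := h.lane (hm j b1) d3 b2 (by linarith)
      exact ⟨d2, d3, b2, by linarith⟩
    · obtain ⟨b1, b2⟩ := mem_of_left hj
      obtain ⟨-, d2, -, -⟩ := H j b1
      have := h.lane (hm j b1) (not_le.1 b2).le (h.le j) (by linarith)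
      exact ⟨d2, (not_le.1 b2).le, by linarith⟩
  have e1 := mul_nonneg w0 k1
  refine W.step hk (fun j => θ j ≤ B - 21 / 8 * (1 - s) + (1 - s) * θ k) (by linarith)
    (h.hr s (B - 21 / 8 * (1 - s) + (1 - s) * θ k) fun j hj => ?_) ?_
  · obtain ⟨b1, b2⟩ := mem_of_left hj
    obtain ⟨-, -, d3, -⟩ := H j b1
    have := h.lane (hm j b1) d3 (h.le j) (by linarith)
    exact ⟨b2, d3, by linarith⟩
  rcases le_total s (3 / 4) with h3 | h3
  · have a1 : θ k ≤ 129 / 100 := by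
      by_contra! a
      nlinarith [mul_le_mul (sub_le_sub_left h3 1) a.le (by norm_num) w0]
    refine h.orig (B - 21 / 8 * (1 - s) + (1 - s) * θ k) L (2 + s * θ k) (by linarith)
      (fun j hj => ?_) ?_
    · obtain ⟨b1, b2⟩ := mem_of_left hj
      exact ⟨(not_le.1 b2).le, (H j b1).2.1, by linarith [h.org k j]⟩
    · nlinarith [mul_nonneg (show 0 ≤ 2 * s - 1 by linarith) (sub_nonneg.2 a1)]
  · have a1 : θ k ≤ 79 / 50 := by
      by_contra! a
      nlinarith [mul_le_mul_of_nonneg_left a.le w0]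
    refine h.vs (B - 21 / 8 * (1 - s) + (1 - s) * θ k) L fun j hj => ?_
    obtain ⟨b1, b2⟩ := mem_of_left hj
    refine ⟨(not_le.1 b2).le, (H j b1).2.1, ?_⟩
    nlinarith [mul_nonneg (show 0 ≤ 1 - 21 / 8 * (1 - s) by linarith) (sub_nonneg.2 a1), h.org k j]

theorem Cone.half2 (h : Cone D ρ θ) {r : ℝ} (hB : 37 / 10 ≤ B) (hBL : B ≤ L)
    (hL : L ≤ B + 9 / 200) (hL4 : L ≤ 4) (hr0 : r ≤ 181 / 200)
    (H : ∀ i ∈ S, 0 ≤ θ i ∧ θ i ≤ L ∧ r ≤ ρ i ∧ f i ≤ ρ i + r * θ i ∧ f i ≤ ρ i + 2 * r) :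
    W D f S (1 + B) := by
  rcases S.eq_empty_or_nonempty with rfl | hne
  · exact Or.inl rfl
  obtain ⟨k, hk, hm⟩ := S.exists_min_image ρ hne
  have hr := (H k hk).2.2.1
  have H' : ∀ s, r ≤ s → s ≤ ρ k →
      ∀ i ∈ S, 0 ≤ θ i ∧ θ i ≤ L ∧ s ≤ ρ i ∧ f i ≤ ρ i + s * θ i := fun s s1 s2 i hi => by
    obtain ⟨a1, a2, -, a4, -⟩ := H i hi
    have := mul_le_mul_of_nonneg_right s1 a1
    exact ⟨a1, a2, s2.trans (hm i hi), by linarith⟩
  rcases le_total (ρ k) (3 / 8) with h1 | h1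
  · have hf := (H k hk).2.2.2.2
    refine W.step hk (fun j => θ j ≤ L / 2) (by linarith)
      (h.orig 0 (L / 2) (4 * ρ k) (by linarith) (fun j hj => ?_) (by linarith))
      (h.orig (L / 2) L (4 * ρ k) (by linarith) (fun j hj => ?_) (by linarith))
    · obtain ⟨b1, b2⟩ := mem_of_left hj
      exact ⟨(H j b1).1, b2, by linarith [h.org k j]⟩
    · obtain ⟨b1, b2⟩ := mem_of_left hj
      exact ⟨(not_le.1 b2).le, (H j b1).2.1, by linarith [h.org k j]⟩
  rcases le_total (ρ k) (27 / 50) with h2 | h2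
  · exact h.mid2 hB hL h1 h2 (H' _ hr le_rfl)
  · exact h.thin2 hB hBL hL (le_min h2 (by norm_num)) (min_le_right _ _)
      (H' _ (le_min hr hr0) (min_le_left _ _))

/-- start at the nearest point -/
theorem Cyc.near (h : Cyc D ρ θ L) (hB : 37 / 10 ≤ B) (hBL : B ≤ L) (hL : L ≤ B + 9 / 200)
    (hL4 : L ≤ 4) {a : α} (ha : a ∈ S) (h0 : θ a = 0) (hr : ρ a ≤ 181 / 200)
    (hm : ∀ i ∈ S, ρ a ≤ ρ i) : W D ρ S (1 + B) := by
  refine W.step ha (fun j => θ j ≤ L) (by linarith)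
    (h.toCone.half2 (r := ρ a) hB hBL hL hL4 hr fun j hj => ?_)
    (h.flip.toCone.half2 (r := ρ a) hB hBL hL hL4 hr fun j hj => ?_)
  · obtain ⟨b1, b2⟩ := mem_of_left hj
    have := (h.start h0 j (min_le_left _ _)).1
    rw [abs_of_nonpos (sub_nonpos.2 (hm j b1))] at this
    exact ⟨h.lo j, b2, hm j b1, by linarith, by linarith [h.org a j]⟩
  · obtain ⟨b1, b2⟩ := mem_of_left hj
    have := (h.start h0 j (min_le_left _ _)).2
    rw [abs_of_nonpos (sub_nonpos.2 (hm j b1))] at this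
    exact ⟨by linarith [h.hi j], by linarith [not_le.1 b2], hm j b1, by linarith,
      by linarith [h.org a j]⟩

/-- start at the inner point of a close pair -/
theorem Cyc.pair (h : Cyc D ρ θ L) (hB : 37 / 10 ≤ B) (hBL : B ≤ L) (hL : L ≤ B + 9 / 200)
    {b k : α} (hb : b ∈ S) (hk : k ∈ S) (hne : k ≠ b) (h0 : θ b = 0) (h1 : θ k ≤ L / 4)
    (h2 : ρ b ≤ ρ k) (hm : ∀ i ∈ S, i ≠ b → θ k ≤ θ i) (hr : ∀ i ∈ S, 181 / 200 ≤ ρ i) :
    W D ρ S (1 + B) := by
  have k1 := h.le k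
  have k2 := (h.start h0 k ((min_le_left _ _).trans (h.le b))).1
  rw [abs_of_nonpos (sub_nonpos.2 h2)] at k2
  refine W.step hb (fun j => θ j ≤ 2 * L - B + 399 / 1600) (by linarith [h.le b]) ?_
    (h.toCone.hl (181 / 200) (2 * L - B + 399 / 1600) fun j hj => ?_)
  · refine W.step (k := k) (Finset.mem_filter.2 ⟨Finset.mem_erase.2 ⟨hne, hk⟩, by linarith⟩)
      (fun j => θ j ≤ B - 399 / 1600) (by linarith)
      (h.toCone.hr (181 / 200) (B - 399 / 1600) fun j hj => ?_)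
      (h.toCone.hr (181 / 200) (2 * L - B + 399 / 1600) fun j hj => ?_)
    · obtain ⟨b1, b2⟩ := mem_of_left hj
      obtain ⟨b3, b4⟩ := Finset.mem_erase.1 (Finset.mem_filter.1 b1).1
      have := h.toCone.lane (hm j b4 b3) (hr j b4) (h.le j) (by norm_num)
      exact ⟨b2, hr j b4, by linarith⟩
    · obtain ⟨b1, b2⟩ := mem_of_left hj
      obtain ⟨b3, b4⟩ := mem_of_left b1
      exact ⟨b4, hr j b3, by linarith [h.org k j, h.le j, not_le.1 b2]⟩
  · obtain ⟨b1, b2⟩ := mem_of_left hj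
    have := (h.start h0 j ((min_le_left _ _).trans (h.le b))).2
    refine ⟨(not_le.1 b2).le, hr j b1, ?_⟩
    rcases abs_cases (ρ b - ρ j) with ⟨h5, -⟩ | ⟨h5, -⟩ <;> linarith [h.le j, h.le b, hr j b1]

/-- at least eight points -/
theorem Cyc.many (h : Cyc D ρ θ L) (hB : 37 / 10 ≤ B) (hBL : B ≤ L) (hL : L ≤ B + 9 / 200)
    (hL4 : L ≤ 4) (hS : 8 ≤ S.card) : W D ρ S (1 + B) := by
  obtain ⟨a, ha, hm⟩ := S.exists_min_image ρ (Finset.card_pos.1 (by omega))
  rcases le_total (ρ a) (181 / 200) with h1 | h1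
  · exact (h.shift a).near hB hBL hL hL4 ha (gap_self a) h1 hm
  have hr : ∀ i ∈ S, 181 / 200 ≤ ρ i := fun i hi => h1.trans (hm i hi)
  obtain ⟨i0, hi0, j0, hj0, hne0, hg0⟩ := exists_close (by linarith) h.hi h.lo hS
  obtain ⟨⟨i, j⟩, hij, hmin⟩ := S.offDiag.exists_min_image (fun q => gap θ L q.1 q.2)
    ⟨(i0, j0), Finset.mem_offDiag.2 ⟨hi0, hj0, hne0⟩⟩
  obtain ⟨hi, hj, hne⟩ := Finset.mem_offDiag.1 hij
  have hg : gap θ L i j ≤ L / 4 :=
    (hmin (i0, j0) (Finset.mem_offDiag.2 ⟨hi0, hj0, hne0⟩)).trans hg0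
  rcases le_total (ρ i) (ρ j) with h2 | h2
  · exact (h.shift i).pair hB hBL hL hi hj (Ne.symm hne) (gap_self i) hg h2
      (fun k hk hk' => hmin (i, k) (Finset.mem_offDiag.2 ⟨hi, hk, hk'.symm⟩)) hr
  · have e : ∀ k, gap (fun i => 2 * L - θ i) L j k = gap θ L k j := fun k => by
      simp only [gap, sub_le_sub_iff_left]
      split_ifs <;> ring
    exact (h.flip.shift j).pair hB hBL hL hj hi hne (gap_self j) (e i ▸ hg) h2
      (fun k hk hk' => by
        rw [e, e]; exact hmin (k, j) (Finset.mem_offDiag.2 ⟨hk, hj, hk'⟩)) hr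

end Pool.Agent.MP_1037db_co

end

-- part MP_1037db_co.LamMain
section

/-! The makespan is at most `1 + max (37 / 10) Lam`. -/

namespace Pool.Agent.MP_1037db_co

open Real

variable {η : Seminorm ℝ (ℝ × ℝ)}

theorem exists_cyc (hη : ∀ x, η x = 0 → x = 0) {α : Type} (p : α → ℝ × ℝ)
    (hp : ∀ i, η (p i) ≤ 1) {L : ℝ} (hP : Per η ≤ L) :
    ∃ θ : α → ℝ, Cyc (fun i j => η (p j - p i)) (fun i => η (p i)) θ L := by
  choose t t1 t2 ht using fun i => exists_angle hη (p i) 0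
  have b1 : ∀ i, η (dir η (t i) - dir η 0) ≤ crd η L 0 (t i) := fun i => by
    linarith [crd_step hη hP le_rfl (t1 i) (t2 i), crd_start hη (L := L) (s := 0)]
  have b2 : ∀ i, η (dir η (t i) - dir η 0) ≤ 2 * L - crd η L 0 (t i) := fun i => by
    have a2 := crd_step hη hP (t1 i) (t2 i) le_rfl
    rw [dir_add_pi, dir_add_pi, neg_neg, map_sub_rev] at a2
    linarith [crd_end hη (s := 0) hP]
  have hd : ∀ i j, η (dir η (t j) - dir η (t i)) ≤ |crd η L 0 (t i) - crd η L 0 (t j)| := by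
    intro i j
    rcases le_total (t i) (t j) with h | h
    · rw [abs_sub_comm]
      exact (crd_step hη hP (t1 i) h (t2 j)).trans (le_abs_self _)
    · rw [map_sub_rev]
      exact (crd_step hη hP (t1 j) h (t2 i)).trans (le_abs_self _)
  have hw : ∀ i j, η (dir η (t j) - dir η (t i)) ≤
      2 * L - |crd η L 0 (t i) - crd η L 0 (t j)| := by
    intro i j
    have a := map_sub_le_add η (dir η (t j) - dir η 0) (dir η (t i) - dir η 0)
    rw [sub_sub_sub_cancel_right] at a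
    rcases abs_cases (crd η L 0 (t i) - crd η L 0 (t j)) with ⟨h, -⟩ | ⟨h, -⟩ <;>
      linarith [b1 i, b1 j, b2 i, b2 j]
  have key : ∀ g : α → α → ℝ, (∀ i j, η (dir η (t j) - dir η (t i)) ≤ g i j) → ∀ i j,
      η (p j - p i) ≤ |η (p i) - η (p j)| + min (η (p i)) (η (p j)) * g i j := by
    intro g hg i j
    rcases le_total (η (p i)) (η (p j)) with h | h
    · rw [min_eq_left h, abs_of_nonpos (sub_nonpos.2 h), neg_sub]
      have := polar_le (u := dir η (t i)) (apply_nonneg η (p i)) h (eta_dir hη (t j))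
      rw [← ht, ← ht] at this
      linarith [mul_le_mul_of_nonneg_left (hg i j) (apply_nonneg η (p i))]
    · rw [min_eq_right h, abs_of_nonneg (sub_nonneg.2 h), map_sub_rev]
      have := polar_le (u := dir η (t j)) (apply_nonneg η (p j)) h (eta_dir hη (t i))
      rw [← ht, ← ht, map_sub_rev η (dir η (t i))] at this
      linarith [mul_le_mul_of_nonneg_left (hg i j) (apply_nonneg η (p j))]
  refine ⟨fun i => crd η L 0 (t i), ⟨fun i => apply_nonneg η _, hp, key _ hd, fun i j => ?_⟩,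
    fun i => (apply_nonneg η _).trans (b1 i), fun i => ?_, key _ hw⟩
  · rw [add_comm]
    exact map_sub_le_add η _ _
  · linarith [b2 i, apply_nonneg η (dir η (t i) - dir η 0)]

theorem main_lam (hη : ∀ x, η x = 0 → x = 0) (n : ℕ) (p : Fin n → ℝ × ℝ)
    (hp : ∀ i, η (p i) ≤ 1) : ∃ T : BinaryTree (Fin n), labels T = Finset.univ.val ∧
      span η p 0 T ≤ 1 + max (37 / 10) (Lam η) := by
  rcases le_or_gt n 7 with hn | hn
  · obtain ⟨T, h1, h2⟩ := seven η hη n hn p hp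
    exact ⟨T, h1, by linarith [le_max_right (37 / 10) (Lam η)]⟩
  set B := max (37 / 10) (Lam η)
  have hB : 37 / 10 ≤ B := le_max_left _ _
  have hB4 : B ≤ 4 := max_le (by norm_num) lam_le_four
  have hP : Per η ≤ min (B + 9 / 200) 4 :=
    le_min ((per_le_lam hη (B := B) (le_max_right _ _)).trans (by nlinarith)) (per_le_four hη)
  obtain ⟨θ, hC⟩ := exists_cyc hη p hp hP
  have hS : 8 ≤ (Finset.univ : Finset (Fin n)).card := by simp; omega
  rcases hC.many hB (le_min (by linarith) hB4) (min_le_left _ _) (min_le_right _ _) hS with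
    h | ⟨i, l, r, h1, h2⟩
  · rw [h] at hS; simp at hS
  · exact ⟨.node i l r, h1, by rw [span, span_eq, span_eq, sub_zero]; exact h2⟩

end Pool.Agent.MP_1037db_co

end
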